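import Pool.Agent.H.MP_ac3185_nt.R.Defs

/-! Definitions for the theorem on quadratic twists over the fields of a multiquadratic tower. -/

set_option autoImplicit false

open CategoryTheory AlgebraicGeometry NumberField IsDedekindDomain
open scoped MonObj

namespace Pool.Agent.H.MP_ac3185_nt

universe u

section field

variable {K : Type u} [Field K]

/-- `B` is a quadratic twist of `A` by the natural number `n`, on the level of points: there is an
isomorphism of groups `φ : A(Kbar) → B(Kbar)` such that `φ (σ x) = σ (φ x)` for the elements `σ` of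
`Gal(Kbar/K)` which fix the square roots of `n`, and `φ (σ x) = - σ (φ x)` for the others. -/
def IsQuadTwist (A B : Over (Spec (.of K))) [GrpObj A] [IsAbVar A] [GrpObj B] [IsAbVar B]
    (n : ℕ) : Prop :=
  ∃ φ : Pts A (AlgebraicClosure K) ≃+ Pts B (AlgebraicClosure K),
    ∀ (σ : AlgebraicClosure K ≃ₐ[K] AlgebraicClosure K) (s : AlgebraicClosure K),
      s ^ 2 = (n : AlgebraicClosure K) → ∀ x : Pts A (AlgebraicClosure K),
        (σ s = s → φ (galHom A σ x) = galHom B σ (φ x)) ∧
        (σ s ≠ s → φ (galHom A σ x) = -galHom B σ (φ x))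

/-- The field generated over `K` by the square roots of the numbers `d j` with `j ≥ n`. -/
noncomputable def sqrtTower (K : Type u) [Field K] (d : ℕ → ℕ) (n : ℕ) :
    IntermediateField K (AlgebraicClosure K) :=
  IntermediateField.adjoin K {x | ∃ j, n ≤ j ∧ x ^ 2 = (d j : AlgebraicClosure K)}

/-- The Galois group of `F / K` has a normal `2`-complement. -/
def TwoNilpotent (F : IntermediateField K (AlgebraicClosure K)) : Prop :=
  ∃ N : Subgroup (F ≃ₐ[K] F), ∃ _ : N.Normal, Odd (Nat.card N) ∧ IsPGroup 2 ((F ≃ₐ[K] F) ⧸ N)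

/-- `F / K` is a finite Galois extension, its Galois group has a normal `2`-complement, there are
quadratic extensions of `K` in `F`, and all of them lie in the field `M`. -/
def AboveTower (M F : IntermediateField K (AlgebraicClosure K)) : Prop :=
  FiniteDimensional K F ∧ IsGalois K F ∧ TwoNilpotent F ∧
    (∃ Q : IntermediateField K (AlgebraicClosure K), Q ≤ F ∧ Module.finrank K Q = 2) ∧
    ∀ Q : IntermediateField K (AlgebraicClosure K), Q ≤ F → Module.finrank K Q = 2 → Q ≤ M

end field

section numberField

variable {K : Type u} [Field K] [NumberField K]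

/-- `A` has good reduction at the finite places of `K` which do not divide the number `N`
(criterion of Néron, Ogg and Shafarevich: for every prime number `ℓ` not in `𝔓` the space
`V_ℓ(A)` is finite dimensional and the inertia group of `𝔓` acts trivially on it). -/
def GoodOutside (A : Over (Spec (.of K))) [GrpObj A] [IsAbVar A] (N : ℕ) : Prop :=
  ∀ v : HeightOneSpectrum (𝓞 K), (N : 𝓞 K) ∉ v.asIdeal → ∀ 𝔓, Above 𝔓 v →
    ∀ (ℓ : ℕ) [Fact ℓ.Prime], (ℓ : 𝓞 (AlgebraicClosure K)) ∉ 𝔓 →
      FiniteDimensional ℚ_[ℓ] (VTate ℓ (Pts A (AlgebraicClosure K))) ∧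
      ∀ g ∈ inertia K 𝔓, galV A ℓ g = LinearMap.id

/-- Standard properties of the local root numbers `W L w = w(B / L_w)` of an abelian variety `B`
over the number field `K` at the finite places `w` of the finite extensions `L` of `K`. -/
structure IsRootNumberFamily (B : Over (Spec (.of K))) [GrpObj B] [IsAbVar B]
    (W : LocalSigns K) : Prop where
  /-- root numbers of abelian varieties are signs -/
  sign : ∀ (L : IntermediateField K (AlgebraicClosure K)) [FiniteDimensional K L]
    (w : HeightOneSpectrum (𝓞 L)), W L w = 1 ∨ W L w = -1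
  /-- almost all root numbers are equal to `1` -/
  almost : ∀ (L : IntermediateField K (AlgebraicClosure K)) [FiniteDimensional K L],
    {w : HeightOneSpectrum (𝓞 L) | W L w ≠ 1}.Finite
  /-- transport of structure: in a Galois extension `L` of `K` the root numbers at the places above
  one place `v` of `K` are equal -/
  transport : ∀ (L : IntermediateField K (AlgebraicClosure K)) [FiniteDimensional K L]
    [IsGalois K L] (v : HeightOneSpectrum (𝓞 K)) (w w' : HeightOneSpectrum (𝓞 L)),
    Divides L w v → Divides L w' v → W L w = W L w'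
  /-- the root number at a place of good reduction is `1` -/
  good : ∀ (L : IntermediateField K (AlgebraicClosure K)) [FiniteDimensional K L]
    (w : HeightOneSpectrum (𝓞 L)) (𝔔 : Ideal (𝓞 (AlgebraicClosure K))), PrimeOver L 𝔔 w →
    (∀ (ℓ : ℕ) [Fact ℓ.Prime], (ℓ : 𝓞 (AlgebraicClosure K)) ∉ 𝔔 →
      FiniteDimensional ℚ_[ℓ] (VTate ℓ (Pts B (AlgebraicClosure K))) ∧
      ∀ g ∈ inertia K 𝔔, g ∈ L.fixingSubgroup → galV B ℓ g = LinearMap.id) → W L w = 1
  /-- if the residue characteristic of `w` is odd, `-1` is a square in the residue field and the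
  inertia group acts on `V_ℓ(B)` through the scalars `±1` (so that `B` has good reduction after a
  quadratic twist of `B` over `L_w` by a character `χ` with `χ(-1) = 1`), then the root number is
  `χ(-1) ^ dim B = 1` -/
  twist : ∀ (L : IntermediateField K (AlgebraicClosure K)) [FiniteDimensional K L]
    (w : HeightOneSpectrum (𝓞 L)) (𝔔 : Ideal (𝓞 (AlgebraicClosure K))), PrimeOver L 𝔔 w →
    (2 : 𝓞 (AlgebraicClosure K)) ∉ 𝔔 → IsSquare (-1 : 𝓞 L ⧸ w.asIdeal) →
    (∀ (ℓ : ℕ) [Fact ℓ.Prime], (ℓ : 𝓞 (AlgebraicClosure K)) ∉ 𝔔 →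
      FiniteDimensional ℚ_[ℓ] (VTate ℓ (Pts B (AlgebraicClosure K))) ∧
      ∀ g ∈ inertia K 𝔔, g ∈ L.fixingSubgroup →
        galV B ℓ g = LinearMap.id ∨ galV B ℓ g = -LinearMap.id) → W L w = 1

end numberField

end Pool.Agent.H.MP_ac3185_nt
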