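import Pool.Agent.H.MP_ac3185_nt.U.RootB
import Pool.Agent.H.MP_ac3185_nt.R.FinD

/-! Global root numbers of the twists over the fields of the tower (helper23). -/

set_option autoImplicit false

open CategoryTheory AlgebraicGeometry NumberField IsDedekindDomain
open scoped MonObj

namespace Pool.Agent.H.MP_ac3185_nt

universe u

variable {K : Type u} [Field K] [NumberField K]

/-- The product of equal signs over a finite set with an even number of elements. -/
theorem root_prod_even {X : Type*} [Finite X] (hX : Even (Nat.card X)) (f : X → ℤ)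
    (h1 : ∀ x, f x = 1 ∨ f x = -1) (h2 : ∀ x y, f x = f y) : ∏ᶠ x, f x = 1 := by
  have _ := Fintype.ofFinite X
  rcases isEmpty_or_nonempty X with h | ⟨⟨x⟩⟩
  · exact finprod_of_isEmpty f
  · rw [finprod_eq_prod_of_fintype, Finset.prod_congr rfl fun y _ => h2 y x, Finset.prod_const,
      Finset.card_univ, ← Nat.card_eq_fintype_card]
    rcases h1 x with h | h
    · rw [h, one_pow]
    · rw [h]
      exact hX.neg_one_pow

/-- The global root number of a quadratic twist over the Galois extensions `F` of `K` which contain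
a quadratic extension of `K` inside the tower. -/
theorem root_twist (A B : Over (Spec (.of K))) [GrpObj A] [IsAbVar A] [GrpObj B] [IsAbVar B]
    {N : ℕ} (hN : N ≠ 0) (hA : GoodOutside A N) {S : Set ℕ} (hS : Adm N S) (t : Finset ℕ)
    (ht : ∀ q ∈ t, q ∈ S) (hAB : IsQuadTwist A B (∏ q ∈ t, q)) (W : LocalSigns K)
    (hW : IsRootNumberFamily B W) (g : ℕ) (F : IntermediateField K (AlgebraicClosure K))
    [FiniteDimensional K F] [IsGalois K F]
    (hQ : ∃ Q : IntermediateField K (AlgebraicClosure K), Q ≤ F ∧ Module.finrank K Q = 2 ∧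
      Q ≤ primeTower K S) : signOver W g F = 1 := by
  have _ := hN
  obtain ⟨Q, hQF, hQ2, hQS⟩ := hQ
  have h1 := roota_infinite F Q hQF hQ2 S hQS
  unfold signOver
  rw [(h1.mul_left g).neg_one_pow, one_mul, (finprod_places F (W F) (hW.almost F)).2]
  rw [finprod_congr (g := fun _ => (1 : ℤ)), finprod_one]
  intro v
  by_cases hv : ((2 * N : ℕ) : 𝓞 K) ∈ v.asIdeal
  · have hev := roota_finite_places hS F Q hQF hQ2 hQS v hv
    obtain ⟨𝔓, h𝔓⟩ := exists_above v
    obtain ⟨T, hT, -⟩ := exists_T F F le_rfl v 𝔓 h𝔓
    have hfin : Finite {w : HeightOneSpectrum (𝓞 F) // Divides F w v} :=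
      Finite.of_surjective T hT
    exact root_prod_even hev _ (fun w => hW.sign F w.1)
      (fun w w' => hW.transport F v w.1 w'.1 w.2 w'.2)
  · rw [finprod_congr (g := fun _ => (1 : ℤ)), finprod_one]
    intro w
    exact rootb_place A B hA hS t ht hAB W hW F v hv w.1 w.2

end Pool.Agent.H.MP_ac3185_nt
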