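import Mathlib

/-! The diagonal form of Hindman's theorem which is used for the universal sequence of twists. -/

set_option autoImplicit false

open Filter

namespace Pool.Agent.H.MP_ac3185_nt.U

/-! ### a sequence of primes -/

/-- Primes `q n = 1` modulo `8`, modulo `N i` for `i ≤ n`, and modulo the previous primes. -/
theorem exists_primes (N : ℕ → ℕ) (hN : ∀ i, N i ≠ 0) :
    ∃ q : ℕ → ℕ, (∀ n, (q n).Prime) ∧ (∀ n, q n ≡ 1 [MOD 8]) ∧
      (∀ i n, i ≤ n → q n ≡ 1 [MOD N i]) ∧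
      (∀ m n, m < n → q m < q n ∧ q n ≡ 1 [MOD q m]) := by
  have step : ∀ M : {m : ℕ // m ≠ 0}, ∃ p : ℕ, p.Prime ∧ M.1 < p ∧ p ≡ 1 [MOD M.1] := by
    intro M
    obtain ⟨p, h1, h2, h3⟩ := Nat.exists_prime_gt_modEq_one (k := M.1) M.1 M.2
    exact ⟨p, h1, h2, h3⟩
  choose pr hpr using step
  let F : ℕ → {m : ℕ // m ≠ 0} := fun n => Nat.rec ⟨8 * N 0, mul_ne_zero (by norm_num) (hN 0)⟩
    (fun k M => ⟨M.1 * pr M * N (k + 1),
      mul_ne_zero (mul_ne_zero M.2 (hpr M).1.ne_zero) (hN (k + 1))⟩) n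
  have hF0 : (F 0).1 = 8 * N 0 := rfl
  have hF1 : ∀ n, (F (n + 1)).1 = (F n).1 * pr (F n) * N (n + 1) := fun n => rfl
  have hdvd : ∀ m n, m ≤ n → (F m).1 ∣ (F n).1 := by
    intro m n hmn
    induction n, hmn using Nat.le_induction with
    | base => exact dvd_rfl
    | succ n hn ih =>
      refine ih.trans ?_
      rw [hF1, mul_assoc]
      exact dvd_mul_right _ _
  have h8 : ∀ n, 8 ∣ (F n).1 := fun n =>
    (dvd_mul_right 8 (N 0)).trans (hdvd 0 n (Nat.zero_le n))
  have hNi : ∀ i n, i ≤ n → N i ∣ (F n).1 := by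
    intro i n hin
    refine Dvd.dvd.trans ?_ (hdvd i n hin)
    cases i with
    | zero => exact dvd_mul_left _ _
    | succ k => rw [hF1]; exact dvd_mul_left _ _
  have hq : ∀ m n, m < n → pr (F m) ∣ (F n).1 := by
    intro m n hmn
    refine Dvd.dvd.trans ?_ (hdvd (m + 1) n hmn)
    rw [hF1, mul_assoc, mul_left_comm]
    exact dvd_mul_right _ _
  refine ⟨fun n => pr (F n), fun n => (hpr _).1, fun n => ?_, fun i n hin => ?_,
    fun m n hmn => ⟨?_, ?_⟩⟩
  · exact (hpr (F n)).2.2.of_dvd (h8 n)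
  · exact (hpr (F n)).2.2.of_dvd (hNi i n hin)
  · exact lt_of_le_of_lt (Nat.le_of_dvd (Nat.pos_of_ne_zero (F n).2) (hq m n hmn)) (hpr (F n)).2.1
  · exact (hpr (F n)).2.2.of_dvd (hq m n hmn)

/-! ### an idempotent ultrafilter -/

/-- There is an idempotent ultrafilter which contains all the sets `FP (a.drop n)`. -/
theorem exists_ultra {M : Type*} [Semigroup M] (a : Stream' M) :
    ∃ U : Ultrafilter M,
      (∀ p : M → Prop, (∀ᶠ m in U, p m) → ∀ᶠ m in U, ∀ᶠ m' in U, p (m * m')) ∧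
      ∀ n, ∀ᶠ m in U, m ∈ Hindman.FP (a.drop n) := by
  let _ : Semigroup (Ultrafilter M) := Ultrafilter.semigroup
  let S : Set (Ultrafilter M) := ⋂ n, { U | ∀ᶠ m in U, m ∈ Hindman.FP (a.drop n) }
  have h := exists_idempotent_in_compact_subsemigroup ?_ S ?_ ?_ ?_
  · rcases h with ⟨U, hU, U_idem⟩
    refine ⟨U, ?_, ?_⟩
    · intro p hp
      rw [← U_idem] at hp
      exact (Ultrafilter.eventually_mul U U p).1 hp
    · exact fun n => Set.mem_iInter.mp hU n
  · exact Ultrafilter.continuous_mul_left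
  · apply IsCompact.nonempty_iInter_of_sequence_nonempty_isCompact_isClosed
    · intro n U hU
      filter_upwards [hU]
      rw [← Stream'.drop_drop, ← Stream'.tail_eq_drop]
      exact Hindman.FP.tail _
    · intro n
      exact ⟨pure _, mem_pure.mpr <| Hindman.FP.head _⟩
    · exact (ultrafilter_isClosed_basic _).isCompact
    · intro n
      apply ultrafilter_isClosed_basic
  · exact IsClosed.isCompact (isClosed_iInter fun i => ultrafilter_isClosed_basic _)
  · intro U hU V hV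
    rw [Set.mem_iInter] at *
    intro n
    show ∀ᶠ m in (U * V : Ultrafilter M), m ∈ Hindman.FP (a.drop n)
    refine (Ultrafilter.eventually_mul U V _).2 ?_
    filter_upwards [hU n] with m hm
    obtain ⟨n', hn⟩ := Hindman.FP.mul hm
    filter_upwards [hV (n' + n)] with m' hm'
    apply hn
    simpa only [Stream'.drop_drop, add_comm] using hm'

/-- The diagonal form: a sequence whose finite products over indices `≥ n` lie in `s n`. -/
theorem exists_diag {M : Type*} [CommMonoid M] (U : Ultrafilter M)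
    (hU : ∀ p : M → Prop, (∀ᶠ m in U, p m) → ∀ᶠ m in U, ∀ᶠ m' in U, p (m * m'))
    (s : ℕ → Set M) (hs : ∀ n, s n ∈ U) :
    ∃ d : ℕ → M, ∀ n, ∀ T : Finset ℕ, T.Nonempty → (∀ j ∈ T, n ≤ j) → ∏ j ∈ T, d j ∈ s n := by
  classical
  have step : ∀ P : {P : Set M // P ∈ U}, ∃ m, m ∈ P.1 ∧ ∀ᶠ m' in U, m * m' ∈ P.1 := by
    intro P
    have h1 : ∀ᶠ m in U, m ∈ P.1 := P.2
    obtain ⟨m, hm⟩ := (h1.and (hU _ h1)).exists
    exact ⟨m, hm.1, hm.2⟩
  choose el hel using step
  let F : ℕ → {P : Set M // P ∈ U} := fun n => Nat.rec ⟨s 0, hs 0⟩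
    (fun k P => ⟨P.1 ∩ {m | el P * m ∈ P.1} ∩ s (k + 1),
      inter_mem (inter_mem P.2 (hel P).2) (hs (k + 1))⟩) n
  have hF1 : ∀ n, (F (n + 1)).1 = (F n).1 ∩ {m | el (F n) * m ∈ (F n).1} ∩ s (n + 1) :=
    fun n => rfl
  have hFs : ∀ n, (F n).1 ⊆ s n := by
    intro n
    cases n with
    | zero => exact subset_rfl
    | succ k => rw [hF1]; exact Set.inter_subset_right
  refine ⟨fun n => el (F n), fun n T hT hn => hFs n ?_⟩
  -- induction on the length of the interval
  have key : ∀ k n : ℕ, ∀ T : Finset ℕ, T.Nonempty → (∀ j ∈ T, n ≤ j) → (∀ j ∈ T, j < n + k) →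
      ∏ j ∈ T, el (F j) ∈ (F n).1 := by
    intro k
    induction k with
    | zero =>
      intro n T hT h1 h2
      obtain ⟨j, hj⟩ := hT
      exact absurd (h2 j hj) (not_lt.2 (h1 j hj))
    | succ k ih =>
      intro n T hT h1 h2
      by_cases hn : n ∈ T
      · rw [← Finset.mul_prod_erase T _ hn]
        rcases (T.erase n).eq_empty_or_nonempty with h | h
        · rw [h, Finset.prod_empty, mul_one]
          exact (hel (F n)).1
        · have h3 := ih (n + 1) (T.erase n) h (fun j hj => by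
            rw [Finset.mem_erase] at hj
            exact Nat.lt_of_le_of_ne (h1 j hj.2) (Ne.symm hj.1)) (fun j hj => by
            rw [Finset.mem_erase] at hj
            have := h2 j hj.2
            omega)
          rw [hF1] at h3
          exact h3.1.2
      · have h3 := ih (n + 1) T hT (fun j hj => by
            refine Nat.lt_of_le_of_ne (h1 j hj) ?_
            rintro rfl
            exact hn hj) (fun j hj => by
            have := h2 j hj
            omega)
        rw [hF1] at h3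
        exact h3.1.1
  obtain ⟨b, hb⟩ := T.bddAbove
  refine key (b + 1) n T hT hn (fun j hj => ?_)
  have := hb (Finset.mem_coe.2 hj)
  omega

/-! ### finite products of primes -/

/-- The members of `FP a`, for a stream of increasing primes. -/
theorem FP_primes {m : ℕ} {a : Stream' ℕ} (h : m ∈ Hindman.FP a)
    (ha : ∀ n, (a.get n).Prime) (hlt : ∀ i j, i < j → a.get i < a.get j) :
    1 < m ∧ Squarefree m ∧ ∀ p : ℕ, p.Prime → p ∣ m → ∃ k, p = a.get k := by
  induction h with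
  | head' a =>
    have h0 : (a.head).Prime := ha 0
    refine ⟨h0.one_lt, h0.squarefree, fun p hp hpm => ⟨0, ?_⟩⟩
    exact (Nat.prime_dvd_prime_iff_eq hp h0).1 hpm
  | tail' a m _ ih =>
    obtain ⟨h1, h2, h3⟩ := ih (fun n => ha (n + 1)) (fun i j hij => hlt (i + 1) (j + 1) (by omega))
    refine ⟨h1, h2, fun p hp hpm => ?_⟩
    obtain ⟨k, hk⟩ := h3 p hp hpm
    exact ⟨k + 1, hk⟩
  | cons' a m _ ih =>
    obtain ⟨h1, h2, h3⟩ := ih (fun n => ha (n + 1)) (fun i j hij => hlt (i + 1) (j + 1) (by omega))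
    have h0 : (a.head).Prime := ha 0
    have hcop : Nat.Coprime a.head m := by
      rw [h0.coprime_iff_not_dvd]
      intro hd
      obtain ⟨k, hk⟩ := h3 _ h0 hd
      have := hlt 0 (k + 1) (by omega)
      exact this.ne hk
    refine ⟨?_, (Nat.squarefree_mul_iff).2 ⟨hcop, h0.squarefree, h2⟩, fun p hp hpm => ?_⟩
    · exact lt_of_lt_of_le h0.one_lt (Nat.le_mul_of_pos_right _ (by omega))
    · rcases (Nat.Prime.dvd_mul hp).1 hpm with h | h
      · exact ⟨0, (Nat.prime_dvd_prime_iff_eq hp h0).1 h⟩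
      · obtain ⟨k, hk⟩ := h3 p hp h
        exact ⟨k + 1, hk⟩

/-- **The universal sequence.** For all colourings `c i` and moduli `N i` there is one sequence
`d 0, d 1, ...` of pairwise coprime square free integers `> 1` such that for every `i` all primes
dividing the `d j` with `j ≥ i` are `1` modulo `8` and `N i`, and all finite non empty products of
the `d j` with `j ≥ i` have the same colour for `c i`. The primes are squares modulo each other. -/
theorem exists_universal (c : ℕ → ℕ → Prop) (N : ℕ → ℕ) (hN : ∀ i, N i ≠ 0) :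
    ∃ d : ℕ → ℕ, (∀ j, 1 < d j) ∧ (∀ j, Squarefree (d j)) ∧
      (∀ j k, j ≠ k → Nat.Coprime (d j) (d k)) ∧
      (∀ j, ∀ p : ℕ, p.Prime → p ∣ d j → p ≡ 1 [MOD 8]) ∧
      (∀ i j, i ≤ j → ∀ p : ℕ, p.Prime → p ∣ d j → p ≡ 1 [MOD N i]) ∧
      (∀ j k, ∀ p q : ℕ, p.Prime → q.Prime → p ∣ d j → q ∣ d k → p < q → q ≡ 1 [MOD p]) ∧
      ∀ i, ∀ T T' : Finset ℕ, T.Nonempty → T'.Nonempty → (∀ j ∈ T, i ≤ j) → (∀ j ∈ T', i ≤ j) →
        (c i (∏ j ∈ T, d j) ↔ c i (∏ j ∈ T', d j)) := by
  classical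
  obtain ⟨q, hq1, hq2, hq3, hq4⟩ := exists_primes N hN
  let a : Stream' ℕ := q
  obtain ⟨U, hU, hUa⟩ := exists_ultra a
  have hget : ∀ n k, (a.drop n).get k = q (k + n) := fun n k => by
    rw [Stream'.get_drop, Nat.add_comm]; rfl
  have hmono : ∀ m n, m < n → q m < q n := fun m n h => (hq4 m n h).1
  have hFP : ∀ n m, m ∈ Hindman.FP (a.drop n) →
      1 < m ∧ Squarefree m ∧ ∀ p : ℕ, p.Prime → p ∣ m → ∃ k, n ≤ k ∧ p = q k := by
    intro n m hm
    obtain ⟨h1, h2, h3⟩ := FP_primes hm (fun k => by rw [hget]; exact hq1 _) (fun i j hij => by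
      rw [hget, hget]; exact hmono _ _ (by omega))
    refine ⟨h1, h2, fun p hp hpm => ?_⟩
    obtain ⟨k, hk⟩ := h3 p hp hpm
    exact ⟨k + n, by omega, by rw [hk, hget]⟩
  let s : ℕ → Set ℕ := fun n => {m | m ∈ Hindman.FP (a.drop n) ∧
    (c n m ↔ ∀ᶠ x in (U : Filter ℕ), c n x)}
  have hs : ∀ n, s n ∈ U := by
    intro n
    have h1 : ∀ᶠ m in (U : Filter ℕ), (c n m ↔ ∀ᶠ x in (U : Filter ℕ), c n x) := by
      by_cases h : ∀ᶠ x in (U : Filter ℕ), c n x
      · filter_upwards [h] with m hm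
        exact ⟨fun _ => h, fun _ => hm⟩
      · have h' : ∀ᶠ x in (U : Filter ℕ), ¬ c n x := by
          rwa [← Ultrafilter.eventually_not] at h
        filter_upwards [h'] with m hm
        exact ⟨fun hh => absurd hh hm, fun hh => absurd hh h⟩
    exact (hUa n).and h1
  obtain ⟨d, hd⟩ := exists_diag U hU s hs
  have hd1 : ∀ j, d j ∈ Hindman.FP (a.drop j) := by
    intro j
    have := (hd j {j} (Finset.singleton_nonempty j) (fun k hk => by
      rw [Finset.mem_singleton] at hk; exact hk.ge)).1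
    rwa [Finset.prod_singleton] at this
  have hcop : ∀ j k, j < k → Nat.Coprime (d j) (d k) := by
    intro j k hjk
    have h1 := (hd j {j, k} ⟨j, Finset.mem_insert_self _ _⟩ (fun i hi => by
      rw [Finset.mem_insert, Finset.mem_singleton] at hi
      rcases hi with rfl | rfl
      · exact le_rfl
      · exact hjk.le)).1
    rw [Finset.prod_pair hjk.ne] at h1
    exact ((Nat.squarefree_mul_iff).1 (hFP j _ h1).2.1).1
  refine ⟨d, fun j => (hFP j _ (hd1 j)).1, fun j => (hFP j _ (hd1 j)).2.1, ?_, ?_, ?_, ?_, ?_⟩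
  · intro j k hjk
    rcases lt_or_gt_of_ne hjk with h | h
    · exact hcop j k h
    · exact (hcop k j h).symm
  · intro j p hp hpd
    obtain ⟨k, _, rfl⟩ := (hFP j _ (hd1 j)).2.2 p hp hpd
    exact hq2 k
  · intro i j hij p hp hpd
    obtain ⟨k, hk, rfl⟩ := (hFP j _ (hd1 j)).2.2 p hp hpd
    exact hq3 i k (hij.trans hk)
  · intro j k p r hp hr hpd hrd hpr
    obtain ⟨m, _, rfl⟩ := (hFP j _ (hd1 j)).2.2 p hp hpd
    obtain ⟨n, _, rfl⟩ := (hFP k _ (hd1 k)).2.2 r hr hrd
    refine (hq4 m n ?_).2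
    by_contra h
    rcases (not_lt.1 h).lt_or_eq with h' | h'
    · exact absurd (hmono n m h') (not_lt.2 hpr.le)
    · rw [h'] at hpr; exact lt_irrefl _ hpr
  · intro i T T' hT hT' h h'
    exact ((hd i T hT h).2).trans ((hd i T' hT' h').2).symm

end Pool.Agent.H.MP_ac3185_nt.U
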