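import Pool.Agent.H.MP_ac3185_nt.U.Chi

/-! Sets of primes, and the fields generated by their square roots. -/

set_option autoImplicit false

open NumberField

namespace Pool.Agent.H.MP_ac3185_nt

universe u

/-- A set of prime numbers which are congruent to `1` modulo `8 N`. -/
def Adm (N : ℕ) (S : Set ℕ) : Prop := ∀ q ∈ S, q.Prime ∧ q ≡ 1 [MOD 8 * N]

/-- The field generated over `K` by the square roots of the elements of `S`. -/
noncomputable def primeTower (K : Type u) [Field K] (S : Set ℕ) :
    IntermediateField K (AlgebraicClosure K) :=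
  IntermediateField.adjoin K {x | ∃ q ∈ S, x ^ 2 = (q : AlgebraicClosure K)}

variable {K : Type u} [Field K] [CharZero K]

omit [CharZero K] in
/-- Two automorphisms which agree on the square roots agree on the field generated by them. -/
theorem Adm_agree (S : Set ℕ) (σ τ : AlgebraicClosure K ≃ₐ[K] AlgebraicClosure K)
    (h : ∀ q ∈ S, ∀ s : AlgebraicClosure K, s ^ 2 = (q : AlgebraicClosure K) → σ s = τ s)
    (x : AlgebraicClosure K) (hx : x ∈ primeTower K S) : σ x = τ x := by
  unfold primeTower at hx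
  induction hx using IntermediateField.adjoin_induction with
  | mem y hy =>
    obtain ⟨q, hq, hy⟩ := hy
    exact h q hq y hy
  | algebraMap y => rw [AlgEquiv.commutes, AlgEquiv.commutes]
  | add y z _ _ h1 h2 => rw [map_add, map_add, h1, h2]
  | inv y _ h1 => rw [map_inv₀, map_inv₀, h1]
  | mul y z _ _ h1 h2 => rw [map_mul, map_mul, h1, h2]

/-- If `σ` fixes the square roots of all elements of `S` it fixes the field `primeTower K S`. -/
theorem fix_primeTower (S : Set ℕ) (σ : AlgebraicClosure K ≃ₐ[K] AlgebraicClosure K)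
    (h : ∀ q ∈ S, chi q σ = 1) : σ ∈ (primeTower K S).fixingSubgroup := by
  rw [IntermediateField.mem_fixingSubgroup_iff]
  intro x hx
  have := Adm_agree S σ 1 (fun q hq s hs => by
    rw [(chi_eq_one_iff q σ s hs).1 (h q hq), AlgEquiv.one_apply]) x hx
  rw [this, AlgEquiv.one_apply]

/-- If `σ` and `τ` agree on the square roots of all elements of `S` they agree on the field
`primeTower K S`. -/
theorem agree_primeTower (S : Set ℕ) (σ τ : AlgebraicClosure K ≃ₐ[K] AlgebraicClosure K)
    (h : ∀ q ∈ S, chi q σ = chi q τ) (x : AlgebraicClosure K) (hx : x ∈ primeTower K S) :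
    σ x = τ x := by
  refine Adm_agree S σ τ (fun q hq s hs => ?_) x hx
  rw [chi_smul q σ s hs, chi_smul q τ s hs, h q hq]

/-- Square roots of products of elements of `S` lie in `primeTower K S`. -/
theorem sqrtTower_le (S : Set ℕ) (d : ℕ → ℕ) (n : ℕ)
    (h : ∀ j, n ≤ j → ∃ t : Finset ℕ, (∀ q ∈ t, q ∈ S) ∧ d j = ∏ q ∈ t, q) :
    sqrtTower K d n ≤ primeTower K S := by
  unfold sqrtTower
  rw [IntermediateField.adjoin_le_iff]
  rintro x ⟨j, hj, hx⟩
  obtain ⟨t, ht, hd⟩ := h j hj
  have hmem : ∀ q ∈ S, rt K q ∈ primeTower K S := fun q hq =>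
    IntermediateField.subset_adjoin K _ ⟨q, hq, rt_sq K q⟩
  have hprod : (∏ q ∈ t, rt K q) ∈ primeTower K S :=
    prod_mem fun q hq => hmem q (ht q hq)
  have hsq : x ^ 2 = (∏ q ∈ t, rt K q) ^ 2 := by
    rw [hx, hd, ← Finset.prod_pow, Nat.cast_prod]
    exact Finset.prod_congr rfl fun q _ => (rt_sq K q).symm
  rcases sq_eq_sq_iff_eq_or_eq_neg.1 hsq with h1 | h1
  · rw [h1]
    exact hprod
  · rw [h1]
    exact neg_mem hprod

end Pool.Agent.H.MP_ac3185_nt
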