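import Pool.Agent.H.MP_ac3185_nt.U.Chi
import Pool.Agent.H.MP_ac3185_nt.R.CorG

/-! The quadratic characters of `Gal(F/K)`. -/

set_option autoImplicit false

open NumberField

namespace Pool.Agent.H.MP_ac3185_nt

universe u

theorem char_prod_aux {ι : Type*} [DecidableEq ι] (X : Finset ι) :
    ∀ (G : Type u) [Group G] (χ : ι → G →* ℤˣ) (ψ : G →* ℤˣ),
      (∀ g, (∀ i ∈ X, χ i g = 1) → ψ g = 1) → ∃ t, t ⊆ X ∧ ψ = ∏ i ∈ t, χ i := by
  induction X using Finset.induction_on with
  | empty =>
    intro G _ χ ψ h
    refine ⟨∅, Finset.Subset.refl _, ?_⟩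
    rw [Finset.prod_empty]
    apply MonoidHom.ext
    intro g
    rw [MonoidHom.one_apply]
    exact h g (fun i hi => absurd hi (Finset.notMem_empty i))
  | insert a Y ha ih =>
    intro G _ χ ψ h
    obtain ⟨t, htY, ht⟩ := ih (χ a).ker (fun i => (χ i).comp (χ a).ker.subtype)
      (ψ.comp (χ a).ker.subtype) (by
        intro g hg
        apply h
        intro i hi
        rcases Finset.mem_insert.1 hi with rfl | hi
        · exact g.2
        · exact hg i hi)
    have hsq : ∀ u : ℤˣ, u * u = 1 := Int.units_mul_self
    have hat : a ∉ t := fun h' => ha (htY h')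
    -- the correction is trivial on the kernel
    have hN : ∀ g, χ a g = 1 → ψ g = ∏ i ∈ t, χ i g := by
      intro g hg
      have h1 := DFunLike.congr_fun ht (⟨g, hg⟩ : (χ a).ker)
      rw [MonoidHom.finsetProd_apply] at h1
      exact h1
    by_cases hall : ∀ g, ψ g = ∏ i ∈ t, χ i g
    · refine ⟨t, htY.trans (Finset.subset_insert a Y), ?_⟩
      apply MonoidHom.ext
      intro g
      rw [MonoidHom.finsetProd_apply]
      exact hall g
    · push Not at hall
      obtain ⟨g₀, hg₀⟩ := hall
      refine ⟨insert a t, Finset.insert_subset_insert a htY, ?_⟩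
      rw [Finset.prod_insert hat]
      apply MonoidHom.ext
      intro g
      rw [MonoidHom.mul_apply, MonoidHom.finsetProd_apply]
      have h0 : χ a g₀ = -1 := by
        rcases Int.units_eq_one_or (χ a g₀) with h1 | h1
        · exact absurd (hN g₀ h1) hg₀
        · exact h1
      have h0' : ψ g₀ = -(∏ i ∈ t, χ i g₀) := by
        rcases Int.units_eq_one_or (ψ g₀) with h1 | h1 <;>
          rcases Int.units_eq_one_or (∏ i ∈ t, χ i g₀) with h2 | h2
        · exact absurd (h1.trans h2.symm) hg₀
        · rw [h1, h2, neg_neg]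
        · rw [h1, h2]
        · exact absurd (h1.trans h2.symm) hg₀
      rcases Int.units_eq_one_or (χ a g) with h1 | h1
      · rw [h1, one_mul]
        exact hN g h1
      · have h2 : χ a (g₀⁻¹ * g) = 1 := by
          rw [map_mul, map_inv, h0, h1]
          decide
        have h3 := hN (g₀⁻¹ * g) h2
        have h4 : g = g₀ * (g₀⁻¹ * g) := by group
        have h5 : ψ g = ψ g₀ * ψ (g₀⁻¹ * g) := by
          rw [← map_mul, ← h4]
        have h6 : (∏ i ∈ t, χ i g) = (∏ i ∈ t, χ i g₀) * ∏ i ∈ t, χ i (g₀⁻¹ * g) := by
          rw [← Finset.prod_mul_distrib]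
          refine Finset.prod_congr rfl fun i _ => ?_
          rw [← map_mul, ← h4]
        rw [h5, h0', h3, h1, h6]
        simp only [neg_mul, one_mul]

/-- A character with values `±1` which is trivial on the common kernel of finitely many such
characters is a product of some of them.

Proof. Induction on `X`. For `X = insert a Y` restrict everything to the subgroup `ker (χ a)`: there
`ψ = ∏ i ∈ t, χ i` for some `t ⊆ Y`. So `ψ * ∏ i ∈ t, χ i` is trivial on `ker (χ a)`; hence it is `1`
or `χ a` (if `χ a g₀ = -1` then every `g` with `χ a g = -1` is `g₀ * h` with `h` in the kernel). -/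
theorem char_prod_of_ker {G ι : Type*} [Group G] [DecidableEq ι] (X : Finset ι) (χ : ι → G →* ℤˣ)
    (ψ : G →* ℤˣ) (h : ∀ g, (∀ i ∈ X, χ i g = 1) → ψ g = 1) :
    ∃ t, t ⊆ X ∧ ψ = ∏ i ∈ t, χ i :=
  char_prod_aux X G χ ψ h

/-- The quadratic characters of `Gal(F/K)`, if all quadratic extensions of `K` in `F` lie in the
tower.

Proof. If `ε = 1` take `t = ∅`. Otherwise let `Q` be the fixed field of `ker ε` in `F`, lifted to the
algebraic closure (see the proof of `even_quadratic` in `R/CorG.lean`); it is quadratic over `K`, so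
`Q ≤ sqrtTower K d n`. Since `Q / K` is finite there is a finite set `X` of `j ≥ n` with
`Q ≤ adjoin K {x | ∃ j ∈ X, x ^ 2 = d j}` (`IntermediateField.exists_finset_of_mem_adjoin` or the
directed union). If `χ_{d j} σ = 1` for all `j ∈ X` then `σ` fixes `Q`, hence the restriction of `σ` to
`F` lies in `ker ε` (`relGal`, `corg_relGal_lift`, fundamental theorem of Galois theory). Apply
`char_prod_of_ker` to `ψ = ε ∘ (restriction to F)` and `chi_prod`. -/
theorem char_tower {K : Type u} [Field K] [CharZero K] (d : ℕ → ℕ) (hd : ∀ j, d j ≠ 0) (n : ℕ)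
    (F : IntermediateField K (AlgebraicClosure K)) [FiniteDimensional K F] [IsGalois K F]
    (hF : ∀ Q : IntermediateField K (AlgebraicClosure K), Q ≤ F → Module.finrank K Q = 2 →
      Q ≤ sqrtTower K d n) (ε : (F ≃ₐ[K] F) →* ℤˣ) :
    ∃ t : Finset ℕ, (∀ j ∈ t, n ≤ j) ∧
      ∀ σ : AlgebraicClosure K ≃ₐ[K] AlgebraicClosure K,
        ε (AlgEquiv.restrictNormalHom F σ) = chi (∏ j ∈ t, d j) σ := by
  classical
  by_cases hε : ε = 1
  · refine ⟨∅, fun j hj => absurd hj (Finset.notMem_empty j), fun σ => ?_⟩
    rw [hε, Finset.prod_empty, chi_one]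
    rfl
  · obtain ⟨E, hE⟩ : ∃ E : IntermediateField K F, E = IntermediateField.fixedField ε.ker := ⟨_, rfl⟩
    have hfix : E.fixingSubgroup = ε.ker := by
      rw [hE, IntermediateField.fixingSubgroup_fixedField]
    have hQ2 : Module.finrank K (IntermediateField.lift E) = 2 := by
      rw [← (IntermediateField.liftAlgEquiv E).toLinearEquiv.finrank_eq,
        IntermediateField.finrank_eq_fixingSubgroup_index, hfix]
      exact corg_index_ker ε hε
    have hQ := hF (IntermediateField.lift E) (IntermediateField.lift_le _) hQ2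
    obtain ⟨α, hα⟩ := Field.exists_primitive_element K E
    have hαQ : (((α : E) : F) : AlgebraicClosure K) ∈ sqrtTower K d n :=
      hQ ((IntermediateField.mem_lift (α : F)).2 α.2)
    obtain ⟨T, hTS, hT⟩ := IntermediateField.exists_finset_of_mem_adjoin hαQ
    have hj : ∀ x : AlgebraicClosure K, ∃ j : ℕ, x ∈ T → n ≤ j ∧
        x ^ 2 = (d j : AlgebraicClosure K) := by
      intro x
      by_cases hx : x ∈ T
      · obtain ⟨j, h1, h2⟩ := hTS hx
        exact ⟨j, fun _ => ⟨h1, h2⟩⟩
      · exact ⟨0, fun h => absurd h hx⟩
    choose jf hjf using hj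
    obtain ⟨t, htX, ht⟩ := char_prod_of_ker (T.image jf)
      (fun j : ℕ => (chi (d j) : (AlgebraicClosure K ≃ₐ[K] AlgebraicClosure K) →* ℤˣ))
      (ε.comp (AlgEquiv.restrictNormalHom F)) (by
        intro σ hσ
        have hσT : ∀ x ∈ T, σ x = x := by
          intro x hx
          have h1 := hσ (jf x) (Finset.mem_image_of_mem jf hx)
          exact (chi_eq_one_iff (d (jf x)) σ x (hjf x hx).2).1 h1
        have hσa : ∀ x ∈ IntermediateField.adjoin K (T : Set (AlgebraicClosure K)), σ x = x := by
          intro x hx
          induction hx using IntermediateField.adjoin_induction with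
          | mem x hx => exact hσT x hx
          | algebraMap x => exact σ.commutes x
          | add x y _ _ h1 h2 => rw [map_add, h1, h2]
          | inv x _ h1 => rw [map_inv₀, h1]
          | mul x y _ _ h1 h2 => rw [map_mul, h1, h2]
        have hcomm : ∀ x : F, ((AlgEquiv.restrictNormalHom F σ x : F) : AlgebraicClosure K) =
            σ (x : AlgebraicClosure K) := fun x =>
          AlgEquiv.restrictNormal_commutes σ F x
        have hα1 : AlgEquiv.restrictNormalHom F σ ((α : E) : F) = ((α : E) : F) := by
          apply Subtype.ext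
          rw [hcomm]
          exact hσa _ hT
        have hall : ∀ y : E, AlgEquiv.restrictNormalHom F σ (y : F) = (y : F) := by
          intro y
          have hy : y ∈ IntermediateField.adjoin K ({α} : Set E) := by
            rw [hα]; exact IntermediateField.mem_top
          induction hy using IntermediateField.adjoin_induction with
          | mem x hx =>
            rw [Set.mem_singleton_iff] at hx
            rw [hx]
            exact hα1
          | algebraMap x => exact (AlgEquiv.restrictNormalHom F σ).commutes x
          | add x y _ _ h1 h2 =>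
            rw [IntermediateField.coe_add, map_add, h1, h2]
          | inv x _ h1 => rw [IntermediateField.coe_inv, map_inv₀, h1]
          | mul x y _ _ h1 h2 => rw [IntermediateField.coe_mul, map_mul, h1, h2]
        have hmem : AlgEquiv.restrictNormalHom F σ ∈ E.fixingSubgroup := by
          rw [IntermediateField.mem_fixingSubgroup_iff]
          intro x hx
          exact hall ⟨x, hx⟩
        rw [hfix] at hmem
        exact hmem)
    refine ⟨t, fun j hj => ?_, fun σ => ?_⟩
    · obtain ⟨x, hx, rfl⟩ := Finset.mem_image.1 (htX hj)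
      exact (hjf x hx).1
    · rw [chi_prod t d (fun i _ => hd i), ← ht]
      rfl

/-- The number of the characters with values `±1` of a finite group is even, if there is a non-trivial
one. Proof: they form a finite group, in which a non-trivial one has order `2`. -/
theorem even_card_chars {G : Type*} [Group G] [Finite G] (h : ∃ ε : G →* ℤˣ, ε ≠ 1) :
    Even (Nat.card (G →* ℤˣ)) := by
  obtain ⟨ε, hε⟩ := h
  have hfin : Finite (G →* ℤˣ) := DFunLike.finite _
  have h2 : orderOf ε = 2 := by
    apply orderOf_eq_prime _ hε
    apply MonoidHom.ext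
    intro g
    rw [MonoidHom.pow_apply, pow_two, MonoidHom.one_apply]
    exact Int.units_mul_self _
  have h3 := orderOf_dvd_natCard ε
  rw [h2] at h3
  exact even_iff_two_dvd.2 h3

/-- A quadratic extension of `K` in `F` gives a non-trivial character (`corg_exists_char`). -/
theorem exists_char_of_quadratic {K : Type u} [Field K] [CharZero K]
    (F : IntermediateField K (AlgebraicClosure K)) [FiniteDimensional K F] [IsGalois K F]
    (h : ∃ Q : IntermediateField K (AlgebraicClosure K), Q ≤ F ∧ Module.finrank K Q = 2) :
    ∃ ε : (F ≃ₐ[K] F) →* ℤˣ, ε ≠ 1 := by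
  obtain ⟨L, hL, hL2⟩ := h
  have hidx : (relGal F L).index = 2 := by
    rw [corg_relGal_restrict F L hL, ← IntermediateField.finrank_eq_fixingSubgroup_index,
      ← (IntermediateField.restrictAlgEquiv hL).toLinearEquiv.finrank_eq]
    exact hL2
  obtain ⟨ε, hε⟩ := corg_exists_char _ hidx
  refine ⟨ε, ?_⟩
  rintro rfl
  rw [MonoidHom.ker_one] at hε
  rw [← hε, Subgroup.index_top] at hidx
  exact absurd hidx (by norm_num)

end Pool.Agent.H.MP_ac3185_nt
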