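import Pool.Agent.H.MP_ac3185_nt.U.Defs

/-! The quadratic characters of the absolute Galois group and the parts of `A(Kbar)`. -/

set_option autoImplicit false

open CategoryTheory AlgebraicGeometry NumberField IsDedekindDomain
open scoped MonObj

namespace Pool.Agent.H.MP_ac3185_nt

universe u

section field

variable (K : Type u) [Field K]

/-- A square root of the natural number `n` in the algebraic closure. -/
noncomputable def rt (n : ℕ) : AlgebraicClosure K :=
  Classical.choose (IsAlgClosed.exists_pow_nat_eq (n : AlgebraicClosure K) (n := 2) two_pos)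

theorem rt_sq (n : ℕ) : rt K n ^ 2 = (n : AlgebraicClosure K) :=
  Classical.choose_spec (IsAlgClosed.exists_pow_nat_eq (n : AlgebraicClosure K) (n := 2) two_pos)

variable {K}

theorem sq_map_eq (n : ℕ) (σ : AlgebraicClosure K ≃ₐ[K] AlgebraicClosure K)
    (s : AlgebraicClosure K) (hs : s ^ 2 = (n : AlgebraicClosure K)) : σ s = s ∨ σ s = -s := by
  rw [← sq_eq_sq_iff_eq_or_eq_neg, ← map_pow, hs, map_natCast]

variable [CharZero K]

open Classical in
/-- The character of `Gal(Kbar/K)` of the extension `K(√n)`. -/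
noncomputable def chi (n : ℕ) : (AlgebraicClosure K ≃ₐ[K] AlgebraicClosure K) →* ℤˣ where
  toFun σ := if σ (rt K n) = rt K n then 1 else -1
  map_one' := if_pos rfl
  map_mul' σ τ := by
    have hτ := sq_map_eq n τ (rt K n) (rt_sq K n)
    have hσ := sq_map_eq n σ (rt K n) (rt_sq K n)
    rw [AlgEquiv.mul_apply]
    by_cases h1 : τ (rt K n) = rt K n
    · rw [h1, if_pos rfl, mul_one]
    · have h1' : τ (rt K n) = -rt K n := hτ.resolve_left h1
      have h0 : -rt K n ≠ rt K n := fun h => h1 (h1'.trans h)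
      rw [if_neg h1, h1', map_neg]
      by_cases h2 : σ (rt K n) = rt K n
      · rw [h2, if_neg h0, if_pos rfl, one_mul]
      · rw [hσ.resolve_left h2, neg_neg, if_pos rfl, if_neg h0]; rfl

theorem chi_eq_one_iff (n : ℕ) (σ : AlgebraicClosure K ≃ₐ[K] AlgebraicClosure K)
    (s : AlgebraicClosure K) (hs : s ^ 2 = (n : AlgebraicClosure K)) :
    chi n σ = 1 ↔ σ s = s := by
  classical
  have h1 : chi n σ = 1 ↔ σ (rt K n) = rt K n := by
    change (if σ (rt K n) = rt K n then (1 : ℤˣ) else -1) = 1 ↔ _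
    by_cases h : σ (rt K n) = rt K n
    · simp [h]
    · rw [if_neg h]
      exact ⟨fun h' => absurd h' (by decide), fun h' => absurd h' h⟩
  rw [h1]
  have h2 : s = rt K n ∨ s = -rt K n := by
    rw [← sq_eq_sq_iff_eq_or_eq_neg, hs, rt_sq]
  rcases h2 with rfl | rfl
  · exact Iff.rfl
  · rw [map_neg, neg_inj]

theorem chi_smul (n : ℕ) (σ : AlgebraicClosure K ≃ₐ[K] AlgebraicClosure K)
    (s : AlgebraicClosure K) (hs : s ^ 2 = (n : AlgebraicClosure K)) :
    σ s = ((chi n σ : ℤ) : AlgebraicClosure K) * s := by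
  rcases Int.units_eq_one_or (chi n σ) with h | h
  · rw [h, (chi_eq_one_iff n σ s hs).1 h]; simp
  · have h1 : σ s ≠ s := fun h' => by
      rw [(chi_eq_one_iff n σ s hs).2 h'] at h
      exact absurd h (by decide)
    rw [h, (sq_map_eq n σ s hs).resolve_left h1]; simp

theorem chi_one : chi (K := K) 1 = 1 := by
  ext σ
  have : chi (K := K) 1 σ = 1 := (chi_eq_one_iff 1 σ 1 (by simp)).2 (map_one σ)
  simp [this]

theorem chi_mul {m n : ℕ} (hm : m ≠ 0) (hn : n ≠ 0) : chi (K := K) (m * n) = chi m * chi n := by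
  apply MonoidHom.ext
  intro σ
  have h0 : rt K m * rt K n ≠ 0 := by
    apply mul_ne_zero
    · intro h
      have := rt_sq K m
      rw [h, zero_pow two_ne_zero] at this
      exact hm (by exact_mod_cast this.symm)
    · intro h
      have := rt_sq K n
      rw [h, zero_pow two_ne_zero] at this
      exact hn (by exact_mod_cast this.symm)
  have h1 := chi_smul (m * n) σ (rt K m * rt K n) (by
    rw [mul_pow, rt_sq, rt_sq, Nat.cast_mul])
  rw [map_mul, chi_smul m σ _ (rt_sq K m), chi_smul n σ _ (rt_sq K n)] at h1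
  have h2 : (((chi m σ : ℤ) * (chi n σ : ℤ) : ℤ) : AlgebraicClosure K) * (rt K m * rt K n) =
      ((chi (m * n) σ : ℤ) : AlgebraicClosure K) * (rt K m * rt K n) := by
    rw [← h1]; push_cast; ring
  have h3 := mul_right_cancel₀ h0 h2
  have h4 : (chi m σ : ℤ) * (chi n σ : ℤ) = (chi (m * n) σ : ℤ) := by exact_mod_cast h3
  rw [MonoidHom.mul_apply]
  apply Units.ext
  rw [Units.val_mul, h4]

theorem chi_prod {J : Type*} (T : Finset J) (d : J → ℕ) (hd : ∀ i ∈ T, d i ≠ 0) :
    chi (K := K) (∏ i ∈ T, d i) = ∏ i ∈ T, chi (d i) := by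
  classical
  induction T using Finset.induction_on with
  | empty => simp [chi_one]
  | insert a T ha ih =>
    rw [Finset.prod_insert ha, Finset.prod_insert ha, chi_mul (hd a (Finset.mem_insert_self a T))
      (Finset.prod_ne_zero_iff.2 fun i hi => hd i (Finset.mem_insert_of_mem hi)),
      ih fun i hi => hd i (Finset.mem_insert_of_mem hi)]

omit [CharZero K] in
theorem Chi_self_mul (χ : (AlgebraicClosure K ≃ₐ[K] AlgebraicClosure K) →* ℤˣ) : χ * χ = 1 := by
  apply MonoidHom.ext
  intro σ
  rw [MonoidHom.mul_apply, Int.units_mul_self, MonoidHom.one_apply]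

/-- `χ_S χ_T` is the character of the symmetric difference. -/
theorem chi_symmDiff {J : Type*} [DecidableEq J] (S T : Finset J) (d : J → ℕ)
    (hd : ∀ i, d i ≠ 0) :
    chi (K := K) (∏ i ∈ symmDiff S T, d i) = chi (∏ i ∈ S, d i) * chi (∏ i ∈ T, d i) := by
  rw [chi_prod _ d fun i _ => hd i, chi_prod _ d fun i _ => hd i, chi_prod _ d fun i _ => hd i]
  have h1 : symmDiff S T = (S \ T) ∪ (T \ S) := rfl
  rw [h1, Finset.prod_union (Finset.disjoint_left.2 fun i hi hi' => by
    simp only [Finset.mem_sdiff] at hi hi'; exact hi.2 hi'.1)]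
  have h2 : ∏ i ∈ S, chi (K := K) (d i) =
      (∏ i ∈ S \ T, chi (K := K) (d i)) * ∏ i ∈ S ∩ T, chi (K := K) (d i) := by
    rw [← Finset.sdiff_inter_self_left S T]
    rw [← Finset.prod_union (Finset.disjoint_left.2 fun i hi hi' => by
      simp only [Finset.mem_sdiff, Finset.mem_inter] at hi hi'; exact hi.2 hi')]
    congr 1
    ext i; simp only [Finset.mem_union, Finset.mem_sdiff, Finset.mem_inter]; tauto
  have h3 : ∏ i ∈ T, chi (K := K) (d i) =
      (∏ i ∈ T \ S, chi (K := K) (d i)) * ∏ i ∈ S ∩ T, chi (K := K) (d i) := by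
    rw [← Finset.prod_union (Finset.disjoint_left.2 fun i hi hi' => by
      simp only [Finset.mem_sdiff, Finset.mem_inter] at hi hi'; exact hi.2 hi'.1)]
    congr 1
    ext i; simp only [Finset.mem_union, Finset.mem_sdiff, Finset.mem_inter]; tauto
  rw [h2, h3]
  have h4 := Chi_self_mul (∏ i ∈ S ∩ T, chi (K := K) (d i))
  calc _ = (∏ i ∈ S \ T, chi (K := K) (d i)) * (∏ i ∈ T \ S, chi (K := K) (d i)) * 1 := by
        rw [mul_one]
    _ = _ := by rw [← h4, mul_mul_mul_comm]

/-- The subgroup of `A(Kbar)` on which `Gal(Kbar/K)` acts through the character of `K(√n)`. For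
`n` a non-square this is the minus part of `A(K(√n))`. -/
noncomputable def chiPts (A : Over (Spec (.of K))) [GrpObj A] [IsAbVar A] (n : ℕ) :
    AddSubgroup (Pts A (AlgebraicClosure K)) where
  carrier := {x | ∀ σ, galHom A σ x = (chi n σ : ℤ) • x}
  zero_mem' := fun σ => by rw [map_zero, smul_zero]
  add_mem' := fun {x y} hx hy σ => by rw [map_add, hx σ, hy σ, smul_add]
  neg_mem' := fun {x} hx σ => by rw [map_neg, hx σ, smul_neg]

/-- The rank of `chiPts A n`, which is the rank of the twist of `A` by `n`. -/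
noncomputable def chiRank (A : Over (Spec (.of K))) [GrpObj A] [IsAbVar A] (n : ℕ) : ℕ :=
  Module.finrank ℤ (chiPts A n)

end field

end Pool.Agent.H.MP_ac3185_nt
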