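import Pool.Agent.H.MP_ac3185_nt.U.Pts
import Pool.Agent.H.MP_ac3185_nt.R.PtsB
import Pool.Agent.H.MP_ac3185_nt.R.CorG

/-! The isotypic parts of the points of a quadratic twist. -/

set_option autoImplicit false

open CategoryTheory AlgebraicGeometry NumberField
open scoped MonObj TensorProduct

namespace Pool.Agent.H.MP_ac3185_nt

universe u

theorem ueps_unit_sq (v : ℤˣ) : (v : ℤ) * (v : ℤ) = 1 := by
  rcases Int.units_eq_one_or v with h | h <;> rw [h] <;> rfl

theorem ueps_smul_smul {N : Type*} [AddCommGroup N] (v : ℤˣ) (x : N) :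
    (v : ℤ) • (v : ℤ) • x = x := by
  rw [smul_smul, ueps_unit_sq, one_smul]

theorem ueps_rep {G : Type*} [Group G] {N : Type u} [AddCommGroup N] (φ φ' : G → N →+ N)
    (h1 : φ 1 = AddMonoidHom.id N) (hm : ∀ a b, φ (a * b) = (φ a).comp (φ b))
    (h1' : φ' 1 = AddMonoidHom.id N) (hm' : ∀ a b, φ' (a * b) = (φ' a).comp (φ' b))
    (ε : G →* ℤˣ) (happ : ∀ g x, φ' g x = (ε g : ℤ) • φ g x) (g : G) (x : ℚ ⊗[ℤ] N) :
    ptsb_rep φ' h1' hm' g x = ((ε g : ℤ) : ℚ) • ptsb_rep φ h1 hm g x := by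
  induction x using TensorProduct.induction_on with
  | zero => rw [map_zero, map_zero, smul_zero]
  | tmul q y =>
    rw [ptsb_rep_tmul, ptsb_rep_tmul, happ, TensorProduct.tmul_smul, Int.cast_smul_eq_zsmul]
  | add x y hx hy => rw [map_add, map_add, hx, hy, smul_add]

/-- The `ε`-part of `ℚ ⊗ N` is `ℚ ⊗` the `ε`-part of `N` (compare `ptsb_main` in `R/PtsB.lean`; apply it,
or its proof, to the twisted action `g ↦ ε g • φ g`, for which the fixed vectors are the `ε`-part). -/
theorem eps_main {G : Type*} [Group G] [Finite G] {N N' : Type u} [AddCommGroup N]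
    [AddCommGroup N'] (φ : G → N →+ N)
    (h1 : φ 1 = AddMonoidHom.id N) (hm : ∀ a b, φ (a * b) = (φ a).comp (φ b))
    (ε : G →* ℤˣ) (j : N' →+ N) (hj : Function.Injective j)
    (hfix : ∀ x : N, (∃ y, j y = x) ↔ ∀ g, φ g x = (ε g : ℤ) • x) :
    Module.rank ℚ (epsPart (ptsb_rep φ h1 hm) ε) = Module.rank ℤ N' := by
  let φ' : G → N →+ N := fun g => (ε g : ℤ) • φ g
  have happ : ∀ g x, φ' g x = (ε g : ℤ) • φ g x := fun g x => rfl
  have h1' : φ' 1 = AddMonoidHom.id N := by
    refine AddMonoidHom.ext fun x => ?_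
    rw [happ, map_one, h1, Units.val_one, one_smul]
  have hm' : ∀ a b, φ' (a * b) = (φ' a).comp (φ' b) := by
    intro a b
    refine AddMonoidHom.ext fun x => ?_
    rw [AddMonoidHom.comp_apply, happ, happ, happ, map_mul, hm, map_zsmul, smul_smul,
      Units.val_mul]
    rfl
  have hfix' : ∀ x : N, (∃ y, j y = x) ↔ ∀ g ∈ (⊤ : Subgroup G), φ' g x = x := by
    intro x
    rw [hfix x]
    constructor
    · intro h g _
      rw [happ, h g, ueps_smul_smul]
    · intro h g
      have h2 := h g trivial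
      rw [happ] at h2
      conv_rhs => rw [← h2]
      rw [ueps_smul_smul]
  have h3 := ptsb_main φ' h1' hm' ⊤ j hj hfix'
  rw [← h3]
  have h4 : epsPart (ptsb_rep φ h1 hm) ε =
      fixedVec (ptsb_rep φ' h1' hm') ((⊤ : Subgroup G) : Set G) := by
    ext x
    have hq : ∀ (g : G) (z : ℚ ⊗[ℤ] N), ((ε g : ℤ) : ℚ) • ((ε g : ℤ) : ℚ) • z = z := by
      intro g z
      rw [smul_smul, ← Int.cast_mul, ueps_unit_sq, Int.cast_one, one_smul]
    constructor
    · intro h g _
      rw [ueps_rep φ φ' h1 hm h1' hm' ε happ, h g, hq]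
    · intro h g
      have h5 := h g trivial
      rw [ueps_rep φ φ' h1 hm h1' hm' ε happ] at h5
      conv_rhs => rw [← h5]
      rw [hq]
  rw [h4]

variable {K : Type u} [Field K] [CharZero K]

theorem ueps_twist (A B : Over (Spec (.of K))) [GrpObj A] [IsAbVar A] [GrpObj B] [IsAbVar B]
    (e : ℕ) (φ : Pts A (AlgebraicClosure K) ≃+ Pts B (AlgebraicClosure K))
    (hφ : ∀ (σ : AlgebraicClosure K ≃ₐ[K] AlgebraicClosure K) (s : AlgebraicClosure K),
      s ^ 2 = (e : AlgebraicClosure K) → ∀ x : Pts A (AlgebraicClosure K),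
        (σ s = s → φ (galHom A σ x) = galHom B σ (φ x)) ∧
        (σ s ≠ s → φ (galHom A σ x) = -galHom B σ (φ x)))
    (σ : AlgebraicClosure K ≃ₐ[K] AlgebraicClosure K) (x : Pts A (AlgebraicClosure K)) :
    φ (galHom A σ x) = (chi e σ : ℤ) • galHom B σ (φ x) := by
  have h1 := hφ σ (rt K e) (rt_sq K e) x
  have h2 := chi_eq_one_iff e σ (rt K e) (rt_sq K e)
  by_cases h : σ (rt K e) = rt K e
  · rw [h1.1 h, h2.2 h, Units.val_one, one_smul]
  · have h3 : chi e σ = -1 := by
      rcases Int.units_eq_one_or (chi e σ) with h4 | h4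
      · exact absurd (h2.1 h4) h
      · exact h4
    rw [h1.2 h, h3, Units.val_neg, Units.val_one, neg_smul, one_smul]

/-- The representation `ℚ ⊗ B(F)` of `Gal(F/K)` for a quadratic twist `B` of `A`: the dimension of the
part belonging to a quadratic character is the rank of a part of `A(Kbar)`.

Proof. `M = ℚ ⊗ Pts B F` with `ptsb_rep (galHom B)` (`ptsb_galHom_one`, `ptsb_galHom_mul`), `ptsb_rank`.
For `ε` and `m` as in the statement use `eps_main` with `N' = chiPts A m` and the map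
`chiPts A m → Pts B F` obtained from the isomorphism `φ : A(Kbar) → B(Kbar)` of the twist and
`pts_descent_closure`: for `x ∈ chiPts A m` one has
`σ (φ x) = χ_e(σ) φ(σ x) = χ_e(σ) χ_m(σ) φ x = ε(σ|F) φ x`, in particular `φ x` is fixed by
`Gal(Kbar/F)` and comes from a point of `B(F)`. Conversely a point `y` of `B(F)` in the `ε`-part gives
`φ⁻¹ (j y) ∈ chiPts A m`. (Every `g` in `Gal(F/K)` is the restriction of some `σ`;
`AlgEquiv.restrictNormal_commutes`, `AlgEquiv.restrictNormalHom_surjective`; the twist relation for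
`σ` is `φ (σ x) = χ_e(σ) σ (φ x)`, from `chi_eq_one_iff`.) -/
theorem exists_twistRep (A B : Over (Spec (.of K))) [GrpObj A] [IsAbVar A] [GrpObj B] [IsAbVar B]
    (e : ℕ) (hAB : IsQuadTwist A B e) (F : IntermediateField K (AlgebraicClosure K))
    [FiniteDimensional K F] [IsGalois K F] :
    ∃ (M : Type u) (_ : AddCommGroup M) (_ : Module ℚ M) (ρ : Representation ℚ (F ≃ₐ[K] F) M),
      Module.rank ℚ M = Module.rank ℤ (Pts B F) ∧
      ∀ (ε : (F ≃ₐ[K] F) →* ℤˣ) (m : ℕ),
        (∀ σ : AlgebraicClosure K ≃ₐ[K] AlgebraicClosure K,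
          ε (AlgEquiv.restrictNormalHom F σ) * chi e σ = chi m σ) →
        Module.rank ℚ (epsPart ρ ε) = Module.rank ℤ (chiPts A m) := by
  have hfin : Finite (F ≃ₐ[K] F) := inferInstance
  refine ⟨ℚ ⊗[ℤ] Pts B F, inferInstance, inferInstance,
    ptsb_rep (galHom B) (ptsb_galHom_one B) (ptsb_galHom_mul B), ptsb_rank _, ?_⟩
  intro ε m hε
  obtain ⟨φ, hφ⟩ := hAB
  obtain ⟨j, hj, hj2, hj3⟩ := pts_descent_closure B F
  have htw := ueps_twist A B e φ hφ
  have hres : ∀ (σ : AlgebraicClosure K ≃ₐ[K] AlgebraicClosure K) (x : F),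
      σ (x : AlgebraicClosure K) = ((AlgEquiv.restrictNormalHom F σ) x : AlgebraicClosure K) :=
    fun σ x => (AlgEquiv.restrictNormal_commutes σ F x).symm
  have hsurj : ∀ g : F ≃ₐ[K] F, ∃ σ : AlgebraicClosure K ≃ₐ[K] AlgebraicClosure K,
      AlgEquiv.restrictNormalHom F σ = g :=
    AlgEquiv.restrictNormalHom_surjective (AlgebraicClosure K)
  have hε' : ∀ σ : AlgebraicClosure K ≃ₐ[K] AlgebraicClosure K,
      (chi e σ : ℤ) * (chi m σ : ℤ) = (ε (AlgEquiv.restrictNormalHom F σ) : ℤ) := by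
    intro σ
    rw [← hε σ, Units.val_mul, mul_comm, mul_assoc, ueps_unit_sq, mul_one]
  -- the action on the points coming from `chiPts`
  have hact : ∀ x ∈ chiPts A m, ∀ σ : AlgebraicClosure K ≃ₐ[K] AlgebraicClosure K,
      galHom B σ (φ x) = (ε (AlgEquiv.restrictNormalHom F σ) : ℤ) • φ x := by
    intro x hx σ
    have h1 := htw σ x
    have h2 : galHom A σ x = (chi m σ : ℤ) • x := hx σ
    rw [h2, map_zsmul] at h1
    have h3 : (chi e σ : ℤ) • (chi m σ : ℤ) • φ x = galHom B σ (φ x) := by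
      rw [h1, ueps_smul_smul]
    rw [← h3, smul_smul, hε']
  have hmem : ∀ x : chiPts A m, φ (x : Pts A (AlgebraicClosure K)) ∈ j.range := by
    intro x
    obtain ⟨y, hy⟩ := (hj3 (φ (x : Pts A (AlgebraicClosure K)))).2 (by
      intro σ hσ
      rw [hact x x.2 σ]
      have h1 : AlgEquiv.restrictNormalHom F σ = 1 := by
        apply AlgEquiv.ext
        intro z
        apply Subtype.ext
        rw [← hres σ z]
        exact (IntermediateField.mem_fixingSubgroup_iff _ _).1 hσ z z.2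
      rw [h1, map_one, Units.val_one, one_smul])
    exact ⟨y, hy⟩
  let j' : chiPts A m →+ Pts B F :=
    (AddMonoidHom.ofInjective hj).symm.toAddMonoidHom.comp
      (((φ.toAddMonoidHom).comp (chiPts A m).subtype).codRestrict j.range hmem)
  have hj' : ∀ x : chiPts A m, j (j' x) = φ (x : Pts A (AlgebraicClosure K)) := by
    intro x
    exact AddMonoidHom.apply_ofInjective_symm hj
      (((φ.toAddMonoidHom).comp (chiPts A m).subtype).codRestrict j.range hmem x)
  refine eps_main (galHom B) (ptsb_galHom_one B) (ptsb_galHom_mul B) ε j' ?_ ?_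
  · intro x x' h
    have h1 : φ (x : Pts A (AlgebraicClosure K)) = φ (x' : Pts A (AlgebraicClosure K)) := by
      rw [← hj', ← hj', h]
    exact Subtype.ext (φ.injective h1)
  · intro y
    constructor
    · rintro ⟨x, rfl⟩ g
      obtain ⟨σ, hσ⟩ := hsurj g
      apply hj
      rw [hj2 σ g (fun z => by rw [hres σ z, hσ]), hj', hact x x.2 σ, hσ, map_zsmul, hj']
    · intro hy
      have hz : φ.symm (j y) ∈ chiPts A m := by
        intro σ
        apply φ.injective
        rw [htw σ, AddEquiv.apply_symm_apply,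
          ← hj2 σ (AlgEquiv.restrictNormalHom F σ) (hres σ) y, hy, map_zsmul, map_zsmul,
          AddEquiv.apply_symm_apply, smul_smul, ← hε σ, Units.val_mul, mul_comm]
      refine ⟨⟨φ.symm (j y), hz⟩, ?_⟩
      apply hj
      rw [hj']
      exact AddEquiv.apply_symm_apply φ (j y)

end Pool.Agent.H.MP_ac3185_nt
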