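import Pool.Agent.H.MP_ac3185_nt.U.Eps
import Pool.Agent.H.MP_ac3185_nt.U.Char

/-! The parity of the ranks of the quadratic twists over the fields of the tower. -/

set_option autoImplicit false

open CategoryTheory AlgebraicGeometry NumberField
open scoped MonObj

namespace Pool.Agent.H.MP_ac3185_nt

universe u

variable {K : Type u} [Field K] [CharZero K]

/-- Proof. `exists_twistRep` for `e = ∏ j ∈ T, d j` gives `M` and `ρ`; `M` is finite dimensional (its
rank is `r`), so is every `epsPart`. `finrank_two_nilpotent` (`R/CorE.lean`) gives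
`r ≡ ∑ᶠ ε, finrank (epsPart ρ ε)`. For every `ε` let `τ ε` be the finite set of `char_tower` (choose
`τ 1 = ∅`). Then `ε(σ|F) χ_e(σ) = χ_m(σ)` for `m = ∏ j ∈ symmDiff T (τ ε), d j` (`chi_symmDiff`), and
`finrank (epsPart ρ ε) = chiRank A m`. -/
theorem rank_twist_mod (A B : Over (Spec (.of K))) [GrpObj A] [IsAbVar A] [GrpObj B] [IsAbVar B]
    (d : ℕ → ℕ) (hd : ∀ j, d j ≠ 0) (n : ℕ) (T : Finset ℕ)
    (hAB : IsQuadTwist A B (∏ j ∈ T, d j)) (F : IntermediateField K (AlgebraicClosure K))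
    [FiniteDimensional K F] [IsGalois K F] (hF2 : TwoNilpotent F)
    (hF : ∀ Q : IntermediateField K (AlgebraicClosure K), Q ≤ F → Module.finrank K Q = 2 →
      Q ≤ sqrtTower K d n) (r : ℕ) (hr : Module.rank ℤ (Pts B F) = (r : Cardinal)) :
    ∃ τ : ((F ≃ₐ[K] F) →* ℤˣ) → Finset ℕ, (∀ ε, ∀ j ∈ τ ε, n ≤ j) ∧
      (∀ ε (σ : AlgebraicClosure K ≃ₐ[K] AlgebraicClosure K),
        ε (AlgEquiv.restrictNormalHom F σ) = chi (∏ j ∈ τ ε, d j) σ) ∧ τ 1 = ∅ ∧
      r ≡ ∑ᶠ ε, chiRank A (∏ j ∈ symmDiff T (τ ε), d j) [MOD 2] := by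
  classical
  have hfinG : Finite (F ≃ₐ[K] F) := inferInstance
  obtain ⟨M, _, _, ρ, hM, hε⟩ := exists_twistRep A B _ hAB F
  have hMr : Module.rank ℚ M = (r : Cardinal) := hM.trans hr
  have hfd : FiniteDimensional ℚ M := Module.rank_lt_aleph0_iff.1 (by
    rw [hMr]; exact Cardinal.natCast_lt_aleph0)
  have hMf : Module.finrank ℚ M = r := Module.finrank_eq_of_rank_eq hMr
  obtain ⟨N, hN, hodd, h2⟩ := hF2
  have hmod := finrank_two_nilpotent N hodd h2 ρ
  have hτ : ∀ ε : (F ≃ₐ[K] F) →* ℤˣ, ∃ t : Finset ℕ, (∀ j ∈ t, n ≤ j) ∧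
      (∀ σ : AlgebraicClosure K ≃ₐ[K] AlgebraicClosure K,
        ε (AlgEquiv.restrictNormalHom F σ) = chi (∏ j ∈ t, d j) σ) ∧ (ε = 1 → t = ∅) := by
    intro ε
    by_cases h : ε = 1
    · refine ⟨∅, by simp, fun σ => ?_, fun _ => rfl⟩
      rw [h, Finset.prod_empty, chi_one]
      rfl
    · obtain ⟨t, h3, h4⟩ := char_tower d hd n F hF ε
      exact ⟨t, h3, h4, fun h' => absurd h' h⟩
  choose τ hτ1 hτ2 hτ3 using hτ
  refine ⟨τ, hτ1, hτ2, hτ3 1 rfl, ?_⟩
  rw [hMf] at hmod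
  refine hmod.trans ?_
  have h5 : ∀ ε : (F ≃ₐ[K] F) →* ℤˣ,
      Module.finrank ℚ (epsPart ρ ε) = chiRank A (∏ j ∈ symmDiff T (τ ε), d j) := by
    intro ε
    have h6 := hε ε (∏ j ∈ symmDiff T (τ ε), d j) (fun σ => by
      rw [hτ2, chi_symmDiff T (τ ε) d hd, MonoidHom.mul_apply, mul_comm])
    unfold chiRank Module.finrank
    rw [h6]
  rw [finsum_congr h5]

theorem rank_modEq_sum {X : Type*} (s : Finset X) (f g : X → ℕ)
    (h : ∀ x ∈ s, f x ≡ g x [MOD 2]) : ∑ x ∈ s, f x ≡ ∑ x ∈ s, g x [MOD 2] := by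
  classical
  induction s using Finset.induction_on with
  | empty => rfl
  | insert a s ha ih =>
    rw [Finset.sum_insert ha, Finset.sum_insert ha]
    exact (h a (Finset.mem_insert_self a s)).add
      (ih fun x hx => h x (Finset.mem_insert_of_mem hx))

/-- An element fixed by `Gal(Kbar/F)` lies in `F`. -/
theorem rank_mem_of_fixed (F : IntermediateField K (AlgebraicClosure K)) (x : AlgebraicClosure K)
    (hx : ∀ σ ∈ F.fixingSubgroup, σ x = x) : x ∈ F := by
  have h1 : x ∈ IntermediateField.fixedField F.fixingSubgroup := by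
    rw [IntermediateField.mem_fixedField_iff]
    exact hx
  rwa [InfiniteGalois.fixedField_fixingSubgroup] at h1

/-- An element of `Gal(Kbar/F)` has trivial restriction to `F`. -/
theorem rank_restrict_one (F : IntermediateField K (AlgebraicClosure K)) [Normal K F]
    (σ : AlgebraicClosure K ≃ₐ[K] AlgebraicClosure K) (hσ : σ ∈ F.fixingSubgroup) :
    AlgEquiv.restrictNormalHom F σ = 1 := by
  ext x
  have h1 : ((AlgEquiv.restrictNormalHom F σ x : F) : AlgebraicClosure K) =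
      σ (x : AlgebraicClosure K) := AlgEquiv.restrictNormal_commutes σ F x
  rw [h1]
  exact (IntermediateField.mem_fixingSubgroup_iff _ _).1 hσ x x.2

/-- Ranks of non-trivial twists.

Proof. In `rank_twist_mod` the set `symmDiff T (τ ε)` is never empty: otherwise `T = τ ε`, so
`χ_{d_T}(σ) = ε(σ|F) = 1` for all `σ` fixing `F`, and the square roots of `d_T` lie in `F`, against
`hx` (they are fixed by `F.fixingSubgroup`). So all terms are `≡ c`, and their number is even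
(`even_card_chars`, `exists_char_of_quadratic`). -/
theorem rank_even_of_twist (A B : Over (Spec (.of K))) [GrpObj A] [IsAbVar A] [GrpObj B]
    [IsAbVar B] (d : ℕ → ℕ) (hd : ∀ j, d j ≠ 0) (n : ℕ) (T : Finset ℕ) (hT : ∀ j ∈ T, n ≤ j)
    (hAB : IsQuadTwist A B (∏ j ∈ T, d j)) (c : ℕ)
    (hc : ∀ T' : Finset ℕ, T'.Nonempty → (∀ j ∈ T', n ≤ j) →
      chiRank A (∏ j ∈ T', d j) ≡ c [MOD 2])
    (F : IntermediateField K (AlgebraicClosure K)) (hF : AboveTower (sqrtTower K d n) F)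
    (hx : ∀ x ∈ F, x ^ 2 ≠ ((∏ j ∈ T, d j : ℕ) : AlgebraicClosure K))
    (r : ℕ) (hr : Module.rank ℤ (Pts B F) = (r : Cardinal)) : Even r := by
  classical
  obtain ⟨_, _, h2, hQ, hquad⟩ := hF
  obtain ⟨τ, hτ1, hτ2, hτ3, hmod⟩ := rank_twist_mod A B d hd n T hAB F h2 hquad r hr
  have hne : ∀ ε, (symmDiff T (τ ε)).Nonempty := by
    intro ε
    rw [Finset.nonempty_iff_ne_empty]
    intro h
    have hT' : T = τ ε := symmDiff_eq_bot.1 h
    have hs := rt_sq K (∏ j ∈ T, d j)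
    refine hx _ (rank_mem_of_fixed F _ fun σ hσ => ?_) hs
    have h4 := hτ2 ε σ
    rw [rank_restrict_one F σ hσ, map_one, ← hT'] at h4
    exact (chi_eq_one_iff _ σ _ hs).1 h4.symm
  have hfin : Finite ((F ≃ₐ[K] F) →* ℤˣ) := DFunLike.finite _
  have _ : Fintype ((F ≃ₐ[K] F) →* ℤˣ) := Fintype.ofFinite _
  have hcard : Even (Fintype.card ((F ≃ₐ[K] F) →* ℤˣ)) := by
    rw [← Nat.card_eq_fintype_card]
    exact even_card_chars (exists_char_of_quadratic F hQ)
  rw [finsum_eq_sum_of_fintype] at hmod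
  have h5 := hmod.trans (rank_modEq_sum Finset.univ _ (fun _ => c) fun ε _ =>
    hc _ (hne ε) fun j hj => by
      rcases Finset.mem_symmDiff.1 hj with h | h
      · exact hT j h.1
      · exact hτ1 ε j h.1)
  rw [Finset.sum_const, Finset.card_univ, smul_eq_mul] at h5
  have h6 : Even (Fintype.card ((F ≃ₐ[K] F) →* ℤˣ) * c) := hcard.mul_right c
  rw [Nat.even_iff] at h6 ⊢
  exact (show r % 2 = _ from h5).trans h6

/-- `A` is a quadratic twist of itself by `1`. -/
theorem isQuadTwist_refl (A : Over (Spec (.of K))) [GrpObj A] [IsAbVar A] : IsQuadTwist A A 1 := by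
  refine ⟨AddEquiv.refl _, fun σ s hs x => ⟨fun _ => rfl, fun h => absurd ?_ h⟩⟩
  rw [Nat.cast_one] at hs
  have h1 : (s - 1) * (s + 1) = 0 := by linear_combination hs
  rcases mul_eq_zero.1 h1 with h2 | h2
  · rw [sub_eq_zero.1 h2, map_one]
  · rw [eq_neg_of_add_eq_zero_left h2, map_neg, map_one]

/-- Ranks of `A` itself.

Proof. `rank_twist_mod` with `B = A`, `T = ∅`: the term of `ε = 1` is `chiRank A 1`; for `ε ≠ 1` the set
`symmDiff ∅ (τ ε) = τ ε` is not empty (otherwise `ε = 1`, restriction to `F` is surjective), so the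
term is `≡ c`, and the number of these terms is odd. -/
theorem rank_const (A : Over (Spec (.of K))) [GrpObj A] [IsAbVar A]
    (d : ℕ → ℕ) (hd : ∀ j, d j ≠ 0) (n : ℕ) (c : ℕ)
    (hc : ∀ T' : Finset ℕ, T'.Nonempty → (∀ j ∈ T', n ≤ j) →
      chiRank A (∏ j ∈ T', d j) ≡ c [MOD 2])
    (F : IntermediateField K (AlgebraicClosure K)) (hF : AboveTower (sqrtTower K d n) F)
    (r : ℕ) (hr : Module.rank ℤ (Pts A F) = (r : Cardinal)) :
    r ≡ chiRank A 1 + c [MOD 2] := by
  classical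
  obtain ⟨_, _, h2, hQ, hquad⟩ := hF
  have hAA : IsQuadTwist A A (∏ j ∈ (∅ : Finset ℕ), d j) := by
    rw [Finset.prod_empty]
    exact isQuadTwist_refl A
  obtain ⟨τ, hτ1, hτ2, hτ3, hmod⟩ := rank_twist_mod A A d hd n ∅ hAA F h2 hquad r hr
  have hsd : ∀ ε, symmDiff ∅ (τ ε) = τ ε := fun ε => bot_symmDiff (τ ε)
  have hne : ∀ ε, ε ≠ 1 → (τ ε).Nonempty := by
    intro ε hε
    rw [Finset.nonempty_iff_ne_empty]
    intro h
    apply hε
    apply MonoidHom.ext
    intro g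
    obtain ⟨σ, rfl⟩ := AlgEquiv.restrictNormalHom_surjective (F := K) (K₁ := F)
      (AlgebraicClosure K) g
    rw [hτ2, h, Finset.prod_empty, chi_one]
    rfl
  have hfin : Finite ((F ≃ₐ[K] F) →* ℤˣ) := DFunLike.finite _
  have _ : Fintype ((F ≃ₐ[K] F) →* ℤˣ) := Fintype.ofFinite _
  have hcard : Even (Fintype.card ((F ≃ₐ[K] F) →* ℤˣ)) := by
    rw [← Nat.card_eq_fintype_card]
    exact even_card_chars (exists_char_of_quadratic F hQ)
  rw [finsum_eq_sum_of_fintype, ← Finset.add_sum_erase Finset.univ _ (Finset.mem_univ 1)] at hmod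
  simp only [hsd, hτ3, Finset.prod_empty] at hmod
  have h5 := hmod.trans (Nat.ModEq.add_left _
    (rank_modEq_sum (Finset.univ.erase (1 : (F ≃ₐ[K] F) →* ℤˣ)) _ (fun _ => c) fun ε hε =>
      hc _ (hne ε (Finset.ne_of_mem_erase hε)) (hτ1 ε)))
  rw [Finset.sum_const, Finset.card_erase_of_mem (Finset.mem_univ _), Finset.card_univ,
    smul_eq_mul] at h5
  refine h5.trans (Nat.ModEq.add_left _ ?_)
  have hpos : 0 < Fintype.card ((F ≃ₐ[K] F) →* ℤˣ) := Fintype.card_pos
  have hodd : (Fintype.card ((F ≃ₐ[K] F) →* ℤˣ) - 1) % 2 = 1 := by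
    rw [Nat.even_iff] at hcard
    omega
  show (_ * c) % 2 = c % 2
  rw [Nat.mul_mod, hodd, one_mul, Nat.mod_mod]

/-- Over a field which contains the square roots of `e` the twist by `e` has the same points. -/
theorem rank_twist_eq (A B : Over (Spec (.of K))) [GrpObj A] [IsAbVar A] [GrpObj B] [IsAbVar B]
    (e : ℕ) (hAB : IsQuadTwist A B e) (F : IntermediateField K (AlgebraicClosure K))
    (x : AlgebraicClosure K) (hxF : x ∈ F) (hx : x ^ 2 = (e : AlgebraicClosure K)) :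
    Module.rank ℤ (Pts B F) = Module.rank ℤ (Pts A F) := by
  obtain ⟨φ, hφ⟩ := hAB
  obtain ⟨jA, hA1, -, hA2⟩ := pts_descent_closure A F
  obtain ⟨jB, hB1, -, hB2⟩ := pts_descent_closure B F
  have hfix : ∀ σ ∈ F.fixingSubgroup, ∀ y, φ (galHom A σ y) = galHom B σ (φ y) := by
    intro σ hσ y
    exact (hφ σ x hx y).1 ((IntermediateField.mem_fixingSubgroup_iff _ _).1 hσ x hxF)
  have hmap : jA.range.map (φ : Pts A (AlgebraicClosure K) →+ Pts B (AlgebraicClosure K)) =
      jB.range := by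
    ext z
    constructor
    · rintro ⟨y, hy, rfl⟩
      refine (hB2 _).2 fun σ hσ => ?_
      have h1 := (hA2 y).1 hy σ hσ
      have h2 := hfix σ hσ y
      rw [h1] at h2
      exact h2.symm
    · intro hz
      refine ⟨φ.symm z, (hA2 _).2 fun σ hσ => ?_, φ.apply_symm_apply z⟩
      apply φ.injective
      rw [hfix σ hσ, φ.apply_symm_apply]
      exact (hB2 z).1 hz σ hσ
  let E : Pts A F ≃+ Pts B F :=
    ((AddMonoidHom.ofInjective hA1).trans (φ.addSubgroupMap jA.range)).trans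
      ((AddEquiv.addSubgroupCongr hmap).trans (AddMonoidHom.ofInjective hB1).symm)
  exact E.symm.toIntLinearEquiv.rank_eq

end Pool.Agent.H.MP_ac3185_nt
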