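import Pool.Agent.H.MP_ac3185_nt.U.Adm

/-! Galois theory of the multiquadratic fields. -/

set_option autoImplicit false

open NumberField

namespace Pool.Agent.H.MP_ac3185_nt

universe u

variable {K : Type u} [Field K] [CharZero K]

/-- Two elements of the Galois group commute on `primeTower K S`. -/
theorem Tower_comm (S : Set ℕ) (σ τ : AlgebraicClosure K ≃ₐ[K] AlgebraicClosure K)
    (x : AlgebraicClosure K) (hx : x ∈ primeTower K S) : σ (τ x) = τ (σ x) := by
  have h := agree_primeTower S (σ * τ) (τ * σ)
    (fun q _ => by rw [map_mul, map_mul, mul_comm]) x hx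
  rwa [AlgEquiv.mul_apply, AlgEquiv.mul_apply] at h

/-- Squares are trivial on `primeTower K S`. -/
theorem Tower_sq (S : Set ℕ) (σ : AlgebraicClosure K ≃ₐ[K] AlgebraicClosure K)
    (x : AlgebraicClosure K) (hx : x ∈ primeTower K S) : σ (σ x) = x := by
  have h := agree_primeTower S (σ * σ) 1
    (fun q _ => by rw [map_mul, map_one, Int.units_mul_self]) x hx
  rwa [AlgEquiv.mul_apply, AlgEquiv.one_apply] at h

/-- A finite extension of `K` in a field generated by square roots of natural numbers is Galois, with
a Galois group of exponent `2`.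

Proof. Let `M = primeTower K S`. By `agree_primeTower` (and `chi (σ τ) = chi σ chi τ`, with values `±1`)
any two elements of `Gal(Kbar/K)` commute on `M`, and squares are trivial on `M`. For `x ∈ L` and
`σ ∈ Gal(Kbar/K)` one has `σ x ∈ L`: for `τ` in `L.fixingSubgroup`, `τ (σ x) = σ (τ x) = σ x`, and the
fixed field of `L.fixingSubgroup` is `L` (`IsGalois.fixedField_fixingSubgroup` or
`InfiniteGalois.fixedField_fixingSubgroup`). So `L / K` is normal
(`IntermediateField.normal_iff_forall_map_le` or similar) and separable. An element `g` of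
`Gal(L/K)` is the restriction of some `σ`, so `g * g = 1`. -/
theorem tower_isGalois (S : Set ℕ) (L : IntermediateField K (AlgebraicClosure K))
    [FiniteDimensional K L] (hL : L ≤ primeTower K S) :
    IsGalois K L ∧ ∀ g : L ≃ₐ[K] L, g * g = 1 := by
  have hmem : ∀ (σ : AlgebraicClosure K ≃ₐ[K] AlgebraicClosure K) (x : AlgebraicClosure K),
      x ∈ L → σ x ∈ L := by
    intro σ x hx
    rw [← InfiniteGalois.fixedField_fixingSubgroup L, IntermediateField.mem_fixedField_iff]
    intro τ hτ
    have h1 : τ x = x := (IntermediateField.mem_fixingSubgroup_iff L τ).1 hτ x hx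
    rw [Tower_comm S τ σ x (hL hx), h1]
  have hnormal : Normal K L := by
    rw [IntermediateField.normal_iff_forall_map_le']
    rintro σ y ⟨x, hx, rfl⟩
    exact hmem σ x hx
  have hgal : IsGalois K L := ⟨⟩
  refine ⟨hgal, ?_⟩
  intro g
  ext y
  have h1 : ∀ z : L, ((g z : L) : AlgebraicClosure K) =
      g.liftNormal (AlgebraicClosure K) (z : AlgebraicClosure K) :=
    fun z => (g.liftNormal_commutes (AlgebraicClosure K) z).symm
  rw [AlgEquiv.mul_apply, AlgEquiv.one_apply, h1, h1]
  exact Tower_sq S _ _ (hL y.2)

/-- Proof: the trivial subgroup is a normal `2`-complement. -/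
theorem tower_twoNilpotent (S : Set ℕ) (L : IntermediateField K (AlgebraicClosure K))
    [FiniteDimensional K L] (hL : L ≤ primeTower K S) : TwoNilpotent L := by
  have h2 : IsPGroup 2 (L ≃ₐ[K] L) := fun g => ⟨1, by
    rw [pow_one, pow_two]
    exact (tower_isGalois S L hL).2 g⟩
  refine ⟨⊥, inferInstance, ?_, h2.to_quotient ⊥⟩
  rw [Subgroup.card_bot]
  exact odd_one

/-- Proof: `Gal(L/K)` is a non-trivial group of exponent `2`, it has a subgroup of index `2`
(for instance: it is a vector space over the field with two elements; or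
`Sylow.exists_subgroup_card_pow_prime`), take its fixed field. -/
theorem tower_exists_quadratic (S : Set ℕ) (L : IntermediateField K (AlgebraicClosure K))
    [FiniteDimensional K L] (hL : L ≤ primeTower K S) (hL1 : L ≠ ⊥) :
    ∃ Q : IntermediateField K (AlgebraicClosure K), Q ≤ L ∧ Module.finrank K Q = 2 := by
  obtain ⟨hgal, hexp⟩ := tower_isGalois S L hL
  have h2 : IsPGroup 2 (L ≃ₐ[K] L) := fun g => ⟨1, by
    rw [pow_one, pow_two]
    exact hexp g⟩
  obtain ⟨n, hn⟩ := IsPGroup.iff_card.1 h2
  have hcard : Nat.card (L ≃ₐ[K] L) = Module.finrank K L := IsGalois.card_aut_eq_finrank K L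
  have hn0 : n ≠ 0 := by
    rintro rfl
    rw [pow_zero, hcard] at hn
    exact hL1 (IntermediateField.finrank_eq_one_iff.1 hn)
  obtain ⟨k, rfl⟩ := Nat.exists_eq_succ_of_ne_zero hn0
  obtain ⟨H, hH⟩ := Sylow.exists_subgroup_card_pow_prime (G := L ≃ₐ[K] L) 2 (n := k)
    (by rw [hn]; exact pow_dvd_pow 2 (Nat.le_succ k))
  have h3 : Module.finrank (IntermediateField.fixedField H) L = 2 ^ k := by
    rw [IntermediateField.finrank_fixedField_eq_card, hH]
  have h4 : Module.finrank K (IntermediateField.fixedField H) *
      Module.finrank (IntermediateField.fixedField H) L = Module.finrank K L :=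
    Module.finrank_mul_finrank K (IntermediateField.fixedField H) L
  rw [h3, ← hcard, hn, pow_succ, mul_comm] at h4
  have h5 : Module.finrank K (IntermediateField.fixedField H) = 2 :=
    Nat.eq_of_mul_eq_mul_left (pow_pos two_pos k) h4
  refine ⟨IntermediateField.lift (IntermediateField.fixedField H),
    IntermediateField.lift_le _, ?_⟩
  rw [← h5]
  exact (LinearEquiv.finrank_eq
    (IntermediateField.liftAlgEquiv (IntermediateField.fixedField H)).toLinearEquiv).symm

theorem aboveTower_of_le (M : IntermediateField K (AlgebraicClosure K)) (S : Set ℕ)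
    (hM : M ≤ primeTower K S) (L : IntermediateField K (AlgebraicClosure K))
    [h : FiniteDimensional K L] (hL : L ≤ M) (hL1 : L ≠ ⊥) : AboveTower M L :=
  ⟨h, (tower_isGalois S L (hL.trans hM)).1, tower_twoNilpotent S L (hL.trans hM),
    tower_exists_quadratic S L (hL.trans hM) hL1, fun _ hQ _ => hQ.trans hL⟩

end Pool.Agent.H.MP_ac3185_nt
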