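import Pool.Agent.H.MP_ac3185_nt.U.Adm

/-! The towers have infinite degree. -/

set_option autoImplicit false

open NumberField IntermediateField

namespace Pool.Agent.H.MP_ac3185_nt

universe u

/-- The elements of `ℚ(s)`, `s ^ 2` a natural number. -/
theorem towerinf_form {M : Type u} [Field M] [CharZero M] (s : M) (m : ℕ) (hs : s ^ 2 = (m : M))
    (x : M) (hx : x ∈ ℚ⟮s⟯) : ∃ a b : ℚ, x = (a : M) + (b : M) * s := by
  have hint : IsAlgebraic ℚ s := by
    refine ⟨Polynomial.X ^ 2 - Polynomial.C (m : ℚ), Polynomial.X_pow_sub_C_ne_zero two_pos _, ?_⟩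
    simp [hs]
  have hx' : x ∈ Algebra.adjoin ℚ {s} := by
    rw [← IntermediateField.adjoin_simple_toSubalgebra_of_isAlgebraic hint]
    exact hx
  clear hx
  induction hx' using Algebra.adjoin_induction with
  | mem y hy =>
    rw [Set.mem_singleton_iff] at hy
    exact ⟨0, 1, by rw [hy]; simp⟩
  | algebraMap q => exact ⟨q, 0, by simp⟩
  | add y z _ _ h1 h2 =>
    obtain ⟨a, b, rfl⟩ := h1
    obtain ⟨c, e, rfl⟩ := h2
    exact ⟨a + c, b + e, by push_cast; ring⟩
  | mul y z _ _ h1 h2 =>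
    obtain ⟨a, b, rfl⟩ := h1
    obtain ⟨c, e, rfl⟩ := h2
    refine ⟨a * c + b * e * m, a * e + b * c, ?_⟩
    push_cast
    rw [← hs]
    ring

/-- A squarefree number `> 1` is not a square of a rational number. -/
theorem towerinf_not_sq {n : ℕ} (h1 : 1 < n) (h2 : Squarefree n) (q : ℚ) : q ^ 2 ≠ (n : ℚ) := by
  intro h
  have h3 : IsSquare (n : ℚ) := ⟨q, by rw [← h, sq]⟩
  rw [Rat.isSquare_natCast_iff] at h3
  obtain ⟨r, hr⟩ := h3
  have h4 : IsUnit r := h2 r ⟨1, by rw [hr, mul_one]⟩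
  rw [Nat.isUnit_iff] at h4
  rw [hr, h4] at h1
  omega

/-- Proof: a number field `M` has only finitely many subfields
(`Field.finite_intermediateField_of_exists_primitive_element` over `ℚ`), but it would contain the
pairwise different quadratic fields `ℚ(√(d j))`, `j ≥ n`: if `√(d j) ∈ ℚ(√(d k))` with `j ≠ k` then
`d j` or `d j * d k` is a square of a rational number, impossible for squarefree coprime numbers
`> 1`. Here the restriction of scalars from `K` to `ℚ` of the tower is an intermediate field of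
`Kbar / ℚ`. -/
theorem sqrtTower_infinite {K : Type u} [Field K] [NumberField K] (d : ℕ → ℕ)
    (h1 : ∀ j, 1 < d j) (h2 : ∀ j, Squarefree (d j)) (h3 : ∀ j k, j ≠ k → (d j).Coprime (d k))
    (n : ℕ) : ¬ FiniteDimensional K (sqrtTower K d n) := by
  intro hfin
  have hQ : FiniteDimensional ℚ (sqrtTower K d n) := FiniteDimensional.trans ℚ K _
  have hfin2 : Finite (IntermediateField ℚ (sqrtTower K d n)) :=
    Field.finite_intermediateField_of_exists_primitive_element ℚ (sqrtTower K d n)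
      (Field.exists_primitive_element ℚ (sqrtTower K d n))
  have hmem : ∀ j : ℕ, rt K (d (n + j)) ∈ sqrtTower K d n := fun j =>
    IntermediateField.subset_adjoin K _ ⟨n + j, Nat.le_add_right n j, rt_sq K _⟩
  obtain ⟨t, ht⟩ : ∃ t : ℕ → sqrtTower K d n, ∀ j, (t j) ^ 2 = ((d (n + j) : ℕ) : sqrtTower K d n) := by
    refine ⟨fun j => ⟨rt K (d (n + j)), hmem j⟩, fun j => Subtype.ext ?_⟩
    exact rt_sq K (d (n + j))
  obtain ⟨j, k, hjk, he⟩ := Finite.exists_ne_map_eq_of_infinite (fun j : ℕ => ℚ⟮t j⟯)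
  have hj : t j ∈ ℚ⟮t k⟯ := by
    have : ℚ⟮t j⟯ = ℚ⟮t k⟯ := he
    rw [← this]
    exact IntermediateField.mem_adjoin_simple_self ℚ (t j)
  obtain ⟨a, b, hab⟩ := towerinf_form (t k) _ (ht k) (t j) hj
  have hsq : ((d (n + j) : ℕ) : sqrtTower K d n) =
      (a : sqrtTower K d n) ^ 2 + (b : sqrtTower K d n) ^ 2 * ((d (n + k) : ℕ) : sqrtTower K d n)
        + 2 * (a : sqrtTower K d n) * b * t k := by
    rw [← ht j, ← ht k, hab]
    ring
  have hne : n + j ≠ n + k := fun h => hjk (by omega)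
  by_cases ha : a = 0
  · -- `d j * d k` is a square
    have h4 : ((b * (d (n + k) : ℕ) : ℚ) : sqrtTower K d n) ^ 2 =
        (((d (n + j) * d (n + k) : ℕ) : ℚ) : sqrtTower K d n) := by
      rw [ha] at hsq
      push_cast
      rw [hsq]
      push_cast
      ring
    have h5 : (b * (d (n + k) : ℕ) : ℚ) ^ 2 = ((d (n + j) * d (n + k) : ℕ) : ℚ) := by
      have h6 : (((b * (d (n + k) : ℕ) : ℚ) ^ 2 : ℚ) : sqrtTower K d n) =
          (((d (n + j) * d (n + k) : ℕ) : ℚ) : sqrtTower K d n) := by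
        rw [← h4]; push_cast; rfl
      exact Rat.cast_injective h6
    refine towerinf_not_sq ?_ ?_ _ h5
    · exact one_lt_mul'' (h1 _) (h1 _)
    · exact (Nat.squarefree_mul (h3 _ _ hne)).2 ⟨h2 _, h2 _⟩
  · by_cases hb : b = 0
    · have h5 : a ^ 2 = ((d (n + j) : ℕ) : ℚ) := by
        have h6 : ((a ^ 2 : ℚ) : sqrtTower K d n) = (((d (n + j) : ℕ) : ℚ) : sqrtTower K d n) := by
          rw [Rat.cast_natCast, hsq, hb]
          push_cast
          ring
        exact Rat.cast_injective h6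
      exact towerinf_not_sq (h1 _) (h2 _) _ h5
    · have h7 : ∃ q : ℚ, t k = (q : sqrtTower K d n) := by
        refine ⟨((d (n + j) : ℕ) - a ^ 2 - b ^ 2 * (d (n + k) : ℕ)) / (2 * a * b), ?_⟩
        have ha' : (a : sqrtTower K d n) ≠ 0 := by exact_mod_cast ha
        have hb' : (b : sqrtTower K d n) ≠ 0 := by exact_mod_cast hb
        push_cast
        rw [eq_div_iff (mul_ne_zero (mul_ne_zero two_ne_zero ha') hb'), hsq]
        ring
      obtain ⟨q, hq⟩ := h7
      have h5 : q ^ 2 = ((d (n + k) : ℕ) : ℚ) := by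
        have h6 : ((q ^ 2 : ℚ) : sqrtTower K d n) = (((d (n + k) : ℕ) : ℚ) : sqrtTower K d n) := by
          rw [Rat.cast_natCast, ← ht k, hq]
          push_cast
          rfl
        exact Rat.cast_injective h6
      exact towerinf_not_sq (h1 _) (h2 _) _ h5

end Pool.Agent.H.MP_ac3185_nt
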