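import Pool.Agent.H.MP_ac3185_nt.U.Hind
import Pool.Agent.H.MP_ac3185_nt.U.Rank
import Pool.Agent.H.MP_ac3185_nt.U.Root
import Pool.Agent.H.MP_ac3185_nt.U.Tower
import Pool.Agent.H.MP_ac3185_nt.U.TowerInf

/-! The theorem for one abelian variety, and the choice of the numbers `d j`. -/

set_option autoImplicit false

open CategoryTheory AlgebraicGeometry NumberField IsDedekindDomain
open scoped MonObj

namespace Pool.Agent.H.MP_ac3185_nt

universe u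

/-- The conclusion for the twists of one abelian variety. -/
theorem twist_all {K : Type u} [Field K] [NumberField K]
    (A : Over (Spec (.of K))) [GrpObj A] [IsAbVar A] {N : ℕ} (hN : N ≠ 0) (hA : GoodOutside A N)
    {S : Set ℕ} (hS : Adm N S) (s : ℕ → Finset ℕ) (d : ℕ → ℕ) (hd0 : ∀ j, d j = ∏ q ∈ s j, q)
    (n : ℕ) (hs : ∀ j, n ≤ j → ∀ q ∈ s j, q ∈ S) (hdisj : ∀ j k, j ≠ k → Disjoint (s j) (s k))
    (hd : ∀ j, d j ≠ 0) (c : ℕ)
    (hc : ∀ T' : Finset ℕ, T'.Nonempty → (∀ j ∈ T', n ≤ j) →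
      chiRank A (∏ j ∈ T', d j) ≡ c [MOD 2])
    (F : IntermediateField K (AlgebraicClosure K)) (hF : AboveTower (sqrtTower K d n) F)
    (T : Finset ℕ) (hT : ∀ j ∈ T, n ≤ j)
    (B : Over (Spec (.of K))) [GrpObj B] [IsAbVar B] (hB : IsQuadTwist A B (∏ j ∈ T, d j))
    (W : LocalSigns K) (hW : IsRootNumberFamily B W)
    (g r : ℕ) (hr : Module.rank ℤ (Pts B F) = (r : Cardinal)) :
    signOver W g F = 1 ∧
      ((∀ x ∈ F, x ^ 2 ≠ ((∏ j ∈ T, d j : ℕ) : AlgebraicClosure K)) → Even r) ∧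
      ((∃ x ∈ F, x ^ 2 = ((∏ j ∈ T, d j : ℕ) : AlgebraicClosure K)) →
        r ≡ chiRank A 1 + c [MOD 2]) := by
  refine ⟨?_, fun hx => rank_even_of_twist A B d hd n T hT hB c hc F hF hx r hr, ?_⟩
  · obtain ⟨hfd, hgal, _, ⟨Q, hQF, hQ2⟩, hquad⟩ := hF
    have hprod : ∏ j ∈ T, d j = ∏ q ∈ T.biUnion s, q := by
      rw [Finset.prod_biUnion (fun j _ k _ hjk => hdisj j k hjk)]
      exact Finset.prod_congr rfl fun j _ => hd0 j
    rw [hprod] at hB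
    refine root_twist A B hN hA hS (T.biUnion s) ?_ hB W hW g F ⟨Q, hQF, hQ2, ?_⟩
    · intro q hq
      obtain ⟨j, hj, hqj⟩ := Finset.mem_biUnion.1 hq
      exact hs j (hT j hj) q hqj
    · exact (hquad Q hQF hQ2).trans (sqrtTower_le S d n fun j hj => ⟨s j, hs j hj, hd0 j⟩)
  · rintro ⟨x, hxF, hx⟩
    rw [rank_twist_eq A B _ hB F x hxF hx] at hr
    exact rank_const A d hd n c hc F hF r hr

/-- The choice of the numbers.

Proof. `U.exists_universal` for `c i e := Odd (f i e)` and `8 * N i` instead of `N i`;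
`s j = (d j).primeFactors`. -/
theorem exists_numbers (N : ℕ → ℕ) (hN : ∀ i, N i ≠ 0) (f : ℕ → ℕ → ℕ) :
    ∃ (s : ℕ → Finset ℕ) (d : ℕ → ℕ), (∀ j, d j = ∏ q ∈ s j, q) ∧
      (∀ j, 1 < d j) ∧ (∀ j, Squarefree (d j)) ∧ (∀ j p, p.Prime → p ∣ d j → p % 8 = 1) ∧
      (∀ j k, j ≠ k → (d j).Coprime (d k)) ∧ (∀ j k, j ≠ k → Disjoint (s j) (s k)) ∧
      ∀ i, Adm (N i) {q | ∃ j, i ≤ j ∧ q ∈ s j} ∧
        ∃ c, ∀ T : Finset ℕ, T.Nonempty → (∀ j ∈ T, i ≤ j) →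
          f i (∏ j ∈ T, d j) ≡ c [MOD 2] := by
  obtain ⟨d, h1, h2, h3, h4, h5, -, h7⟩ :=
    U.exists_universal (fun i e => Odd (f i e)) (fun i => 8 * N i)
      (fun i => mul_ne_zero (by norm_num) (hN i))
  refine ⟨fun j => (d j).primeFactors, d, fun j => ?_, h1, h2, fun j p hp hpd => h4 j p hp hpd, h3,
    fun j k hjk => (h3 j k hjk).disjoint_primeFactors, fun i => ⟨?_, ?_⟩⟩
  · exact (Nat.prod_primeFactors_of_squarefree (h2 j)).symm
  · rintro q ⟨j, hij, hq⟩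
    have hq' := Nat.mem_primeFactors.1 hq
    exact ⟨hq'.1, h5 i j hij q hq'.1 hq'.2.1⟩
  · refine ⟨f i (∏ j ∈ {i}, d j), fun T hT hTi => ?_⟩
    have h8 := h7 i T {i} hT (Finset.singleton_nonempty i) hTi (fun j hj => by
      rw [Finset.mem_singleton.1 hj])
    show f i (∏ j ∈ T, d j) % 2 = f i (∏ j ∈ {i}, d j) % 2
    rcases Nat.even_or_odd (f i (∏ j ∈ T, d j)) with h9 | h9
    · have h10 : ¬ Odd (f i (∏ j ∈ {i}, d j)) := fun h => (Nat.not_odd_iff_even.2 h9) (h8.2 h)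
      rw [Nat.not_odd_iff_even] at h10
      rw [Nat.even_iff.1 h9, Nat.even_iff.1 h10]
    · rw [Nat.odd_iff.1 h9, Nat.odd_iff.1 (h8.1 h9)]

end Pool.Agent.H.MP_ac3185_nt
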