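import Pool.Agent.H.MP_ac3185_nt.U.Chi
import Pool.Agent.H.MP_ac3185_nt.R.PtsA

/-! Galois descent of points from the algebraic closure. -/

set_option autoImplicit false

open CategoryTheory AlgebraicGeometry NumberField
open scoped MonObj

namespace Pool.Agent.H.MP_ac3185_nt

universe u

variable {K : Type u} [Field K]

theorem upts_w (F : IntermediateField K (AlgebraicClosure K)) :
    Spec.map (CommRingCat.ofHom (F.val : F →+* AlgebraicClosure K)) ≫
      Spec.map (CommRingCat.ofHom (algebraMap K F)) =
        Spec.map (CommRingCat.ofHom (algebraMap K (AlgebraicClosure K))) := by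
  rw [← Spec.map_comp]
  congr 1

/-- The morphism `Spec Kbar → Spec F`. -/
noncomputable def upts_map (F : IntermediateField K (AlgebraicClosure K)) :
    specOver K (AlgebraicClosure K) ⟶ specOver K F :=
  Over.homMk (Spec.map (CommRingCat.ofHom (F.val : F →+* AlgebraicClosure K))) (upts_w F)

/-- The base change of points. -/
noncomputable def upts_fn (A : Over (Spec (.of K))) (F : IntermediateField K (AlgebraicClosure K))
    (y : Pts A F) : Pts A (AlgebraicClosure K) :=
  Additive.ofMul (upts_map F ≫ (Additive.toMul y : specOver K F ⟶ A))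

/-- The base change of points, as a homomorphism. -/
noncomputable def upts_j (A : Over (Spec (.of K))) [GrpObj A] [IsAbVar A]
    (F : IntermediateField K (AlgebraicClosure K)) : Pts A F →+ Pts A (AlgebraicClosure K) where
  toFun := upts_fn A F
  map_zero' := by
    show Additive.ofMul (upts_map F ≫ (1 : specOver K F ⟶ A)) = Additive.ofMul 1
    rw [MonObj.comp_one]
  map_add' x y := by
    have h : upts_map F ≫ ((Additive.toMul x : specOver K F ⟶ A) * Additive.toMul y) =
        (upts_map F ≫ Additive.toMul x) * (upts_map F ≫ Additive.toMul y) := MonObj.comp_mul _ _ _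
    exact congrArg Additive.ofMul h

/-- Compatibility with the Galois actions. -/
theorem upts_comm (F : IntermediateField K (AlgebraicClosure K))
    (σ : AlgebraicClosure K ≃ₐ[K] AlgebraicClosure K) (g : F ≃ₐ[K] F)
    (h : ∀ x : F, σ (x : AlgebraicClosure K) = (g x : AlgebraicClosure K)) :
    upts_map F ≫ specGal g = specGal σ ≫ upts_map F := by
  apply Over.OverMorphism.ext
  show Spec.map (CommRingCat.ofHom (F.val : F →+* AlgebraicClosure K)) ≫
      Spec.map (CommRingCat.ofHom (g : F →+* F)) =
    Spec.map (CommRingCat.ofHom (σ : AlgebraicClosure K →+* AlgebraicClosure K)) ≫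
      Spec.map (CommRingCat.ofHom (F.val : F →+* AlgebraicClosure K))
  rw [← Spec.map_comp, ← Spec.map_comp]
  congr 1
  ext z
  exact (h z).symm

variable [CharZero K]

/-- Galois descent of points from the algebraic closure: for `F / K` Galois the group `B(F)` is the group
of the points of `B(Kbar)` fixed by `Gal(Kbar/F)`, compatibly with the actions of the Galois groups.

Proof. As in `R/PtsA.lean` (`pts_descent`), with the morphism `Spec Kbar → Spec F` given by `F.val` (or
`algebraMap F (AlgebraicClosure K)`); `ptsa_epi` and `ptsa_factor` apply, the elements of `Kbar` fixed by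
`F.fixingSubgroup` lie in `F` (`InfiniteGalois.fixedField_fixingSubgroup`). -/
theorem pts_descent_closure (B : Over (Spec (.of K))) [GrpObj B] [IsAbVar B]
    (F : IntermediateField K (AlgebraicClosure K)) :
    ∃ j : Pts B F →+ Pts B (AlgebraicClosure K), Function.Injective j ∧
      (∀ (σ : AlgebraicClosure K ≃ₐ[K] AlgebraicClosure K) (g : F ≃ₐ[K] F),
        (∀ x : F, σ (x : AlgebraicClosure K) = (g x : AlgebraicClosure K)) →
          ∀ y, j (galHom B g y) = galHom B σ (j y)) ∧
      ∀ x : Pts B (AlgebraicClosure K),
        (∃ y, j y = x) ↔ ∀ σ ∈ F.fixingSubgroup, galHom B σ x = x := by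
  have hepi : Epi (Spec.map (CommRingCat.ofHom (F.val : F →+* AlgebraicClosure K))) :=
    ptsa_epi _
  refine ⟨upts_j B F, ?_, ?_, ?_⟩
  · intro y y' h
    have h1 : upts_map F ≫ (Additive.toMul y : specOver K F ⟶ B) =
        upts_map F ≫ (Additive.toMul y' : specOver K F ⟶ B) := h
    have h2 : Spec.map (CommRingCat.ofHom (F.val : F →+* AlgebraicClosure K)) ≫
        (Additive.toMul y : specOver K F ⟶ B).left =
        Spec.map (CommRingCat.ofHom (F.val : F →+* AlgebraicClosure K)) ≫
        (Additive.toMul y' : specOver K F ⟶ B).left :=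
      congrArg (fun m : specOver K (AlgebraicClosure K) ⟶ B => m.left) h1
    have h3 := (cancel_epi _).1 h2
    exact congrArg Additive.ofMul (Over.OverMorphism.ext h3)
  · intro σ g hg y
    show Additive.ofMul (upts_map F ≫ (specGal g ≫ (Additive.toMul y : specOver K F ⟶ B))) =
      Additive.ofMul (specGal σ ≫ (upts_map F ≫ (Additive.toMul y : specOver K F ⟶ B)))
    rw [← Category.assoc, upts_comm F σ g hg, Category.assoc]
  · intro x
    constructor
    · rintro ⟨y, rfl⟩ σ hσ
      show Additive.ofMul (specGal σ ≫ (upts_map F ≫ (Additive.toMul y : specOver K F ⟶ B))) =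
        Additive.ofMul (upts_map F ≫ (Additive.toMul y : specOver K F ⟶ B))
      have h1 : specGal σ ≫ upts_map F = upts_map F := by
        apply Over.OverMorphism.ext
        show Spec.map (CommRingCat.ofHom (σ : AlgebraicClosure K →+* AlgebraicClosure K)) ≫
          Spec.map (CommRingCat.ofHom (F.val : F →+* AlgebraicClosure K)) =
          Spec.map (CommRingCat.ofHom (F.val : F →+* AlgebraicClosure K))
        rw [← Spec.map_comp]
        congr 1
        ext z
        exact (IntermediateField.mem_fixingSubgroup_iff _ _).1 hσ z z.2
      rw [← Category.assoc, h1]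
    · intro hx
      obtain ⟨y, hy⟩ := ptsa_factor (F.val : F →+* AlgebraicClosure K)
        {g | ∃ s ∈ F.fixingSubgroup, g = (s : AlgebraicClosure K →+* AlgebraicClosure K)} (by
          intro z hz
          have h1 : z ∈ IntermediateField.fixedField F.fixingSubgroup := by
            rw [IntermediateField.mem_fixedField_iff]
            intro s hs
            exact hz _ ⟨s, hs, rfl⟩
          rw [InfiniteGalois.fixedField_fixingSubgroup] at h1
          exact ⟨⟨z, h1⟩, rfl⟩) B.left
        (Additive.toMul x : specOver K (AlgebraicClosure K) ⟶ B).left (by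
          rintro _ ⟨g, hg, rfl⟩
          have h1 : specGal g ≫ (Additive.toMul x : specOver K (AlgebraicClosure K) ⟶ B) =
            (Additive.toMul x : specOver K (AlgebraicClosure K) ⟶ B) := hx g hg
          exact congrArg (fun m : specOver K (AlgebraicClosure K) ⟶ B => m.left) h1)
      have hw : y ≫ B.hom = Spec.map (CommRingCat.ofHom (algebraMap K F)) := by
        rw [← cancel_epi (Spec.map (CommRingCat.ofHom (F.val : F →+* AlgebraicClosure K))),
          ← Category.assoc, hy, upts_w F]
        exact Over.w (Additive.toMul x : specOver K (AlgebraicClosure K) ⟶ B)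
      refine ⟨Additive.ofMul (Over.homMk y hw : specOver K F ⟶ B), ?_⟩
      have h2 : upts_map F ≫ (Over.homMk y hw : specOver K F ⟶ B) =
          (Additive.toMul x : specOver K (AlgebraicClosure K) ⟶ B) := by
        apply Over.OverMorphism.ext
        exact hy
      exact congrArg Additive.ofMul h2

end Pool.Agent.H.MP_ac3185_nt
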