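import Pool.Agent.H.MP_ac3185_nt.U.Adm
import Pool.Agent.H.MP_ac3185_nt.R.PlC
import Pool.Agent.H.MP_ac3185_nt.R.FinA
import Pool.Agent.H.MP_ac3185_nt.R.CorF

/-! The numbers of places of a Galois extension `F / K` which contains a quadratic extension `Q` of
`K` in the tower: the infinite places and the places above `2 N`. -/

set_option autoImplicit false

open CategoryTheory AlgebraicGeometry NumberField IsDedekindDomain
open scoped MonObj Pointwise

namespace Pool.Agent.H.MP_ac3185_nt

universe u

/-! ### group actions -/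

/-- If all stabilisers lie in a subgroup of index two then the number of elements is even. -/
theorem roota_even_card {G X : Type*} [Group G] [Finite X] [MulAction G X] (H : Subgroup G)
    (hH : H.index = 2) (hst : ∀ (g : G) (x : X), g • x = x → g ∈ H) : Even (Nat.card X) := by
  classical
  have _ := Fintype.ofFinite X
  -- representatives of the orbits
  have hrep : ∀ x : X, ∃ g : G, g • (Quotient.out (Quotient.mk (MulAction.orbitRel G X) x)) = x := by
    intro x
    have h1 : (MulAction.orbitRel G X) x
        (Quotient.out (Quotient.mk (MulAction.orbitRel G X) x)) :=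
      (MulAction.orbitRel G X).symm (@Quotient.mk_out X (MulAction.orbitRel G X) x)
    rw [MulAction.orbitRel_apply] at h1
    obtain ⟨g, hg⟩ := h1
    exact ⟨g, hg⟩
  choose gm hgm using hrep
  have hs : ∃ s : G, s ∉ H := by
    by_contra h
    push Not at h
    have : H = ⊤ := by
      rw [eq_top_iff]
      intro g _
      exact h g
    rw [this, Subgroup.index_top] at hH
    exact absurd hH (by norm_num)
  obtain ⟨s, hs⟩ := hs
  let p : X → Prop := fun x => gm x ∈ H
  let e : X ≃ X := MulAction.toPerm s
  have he : ∀ x, p (e x) ↔ ¬ p x := by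
    intro x
    show gm (s • x) ∈ H ↔ ¬ gm x ∈ H
    have h1 : Quotient.mk (MulAction.orbitRel G X) (s • x) =
        Quotient.mk (MulAction.orbitRel G X) x := by
      apply Quotient.sound
      show (MulAction.orbitRel G X) (s • x) x
      rw [MulAction.orbitRel_apply]
      exact ⟨s, rfl⟩
    have h2 := hgm (s • x)
    rw [h1] at h2
    have h3 := hgm x
    have h4 : ((s * gm x)⁻¹ * gm (s • x)) •
        (Quotient.out (Quotient.mk (MulAction.orbitRel G X) x)) =
        Quotient.out (Quotient.mk (MulAction.orbitRel G X) x) := by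
      rw [mul_smul, h2]
      conv_lhs => rw [← h3]
      rw [← mul_smul s, inv_smul_eq_iff, mul_smul, h3, mul_smul, h3]
    have h5 := hst _ _ h4
    have h6 : gm (s • x) ∈ H ↔ s * gm x ∈ H := by
      have e1 : gm (s • x) = (s * gm x) * ((s * gm x)⁻¹ * gm (s • x)) := by group
      constructor
      · intro h
        have e2 : s * gm x = gm (s • x) * ((s * gm x)⁻¹ * gm (s • x))⁻¹ := by group
        rw [e2]
        exact H.mul_mem h (H.inv_mem h5)
      · intro h
        rw [e1]
        exact H.mul_mem h h5
    rw [h6, Subgroup.mul_mem_iff_of_index_two hH]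
    constructor
    · intro h h'
      exact hs (h.2 h')
    · intro h
      exact ⟨fun h' => absurd h' hs, fun h' => absurd h' h⟩
  have h1 : Nat.card {x // ¬ p x} = Nat.card {x // p x} :=
    Nat.card_congr (e.subtypeEquiv fun a => (he a).symm)
  have h2 : Nat.card X = Nat.card {x // p x} + Nat.card {x // ¬ p x} := by
    rw [← Nat.card_sum]
    exact Nat.card_congr (Equiv.sumCompl p).symm
  rw [h2, h1]
  exact ⟨_, rfl⟩

section fields

variable {K : Type u} [Field K] [NumberField K]

theorem roota_index (F Q : IntermediateField K (AlgebraicClosure K)) [FiniteDimensional K F]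
    [IsGalois K F] (hQ : Q ≤ F) (h2 : Module.finrank K Q = 2) : (relGal F Q).index = 2 := by
  have h1 : relGal F Q = (IntermediateField.restrict hQ).fixingSubgroup := by
    ext g
    rw [IntermediateField.mem_fixingSubgroup_iff]
    constructor
    · intro h x hx
      refine h x ?_
      exact (IntermediateField.mem_restrict hQ x).1 hx
    · intro h x hx
      exact h x ((IntermediateField.mem_restrict hQ x).2 hx)
  rw [h1, ← IntermediateField.finrank_eq_fixingSubgroup_index,
    ← (IntermediateField.restrictAlgEquiv hQ).toLinearEquiv.finrank_eq]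
  exact h2

/-! ### infinite places -/

/-- The elements of the tower are real in the embeddings for which `K` is real. -/
theorem roota_real (S : Set ℕ) (Φ : AlgebraicClosure K →+* ℂ)
    (hΦ : ∀ x : K, starRingEnd ℂ (Φ (algebraMap K (AlgebraicClosure K) x)) =
      Φ (algebraMap K (AlgebraicClosure K) x))
    (x : AlgebraicClosure K) (hx : x ∈ primeTower K S) : starRingEnd ℂ (Φ x) = Φ x := by
  let E : Subfield (AlgebraicClosure K) := RingHom.eqLocusField ((starRingEnd ℂ).comp Φ) Φ
  let E' : IntermediateField K (AlgebraicClosure K) := E.toIntermediateField hΦ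
  have h1 : primeTower K S ≤ E' := by
    unfold primeTower
    rw [IntermediateField.adjoin_le_iff]
    rintro y ⟨q, _, hy⟩
    show starRingEnd ℂ (Φ y) = Φ y
    have h2 : (Φ y) ^ 2 = ((q : ℝ) : ℂ) := by
      rw [← map_pow, hy, map_natCast, Complex.ofReal_natCast]
    have h3 : ((Real.sqrt q : ℝ) : ℂ) ^ 2 = ((q : ℝ) : ℂ) := by
      rw [← Complex.ofReal_pow, Real.sq_sqrt (Nat.cast_nonneg q)]
    rcases sq_eq_sq_iff_eq_or_eq_neg.1 (h2.trans h3.symm) with h | h
    · rw [h, Complex.conj_ofReal]
    · rw [h, map_neg, Complex.conj_ofReal]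
  exact h1 hx

/-- The number of infinite places is even. -/
theorem roota_infinite (F Q : IntermediateField K (AlgebraicClosure K)) [FiniteDimensional K F]
    [IsGalois K F] (hQ : Q ≤ F) (h2 : Module.finrank K Q = 2) (S : Set ℕ)
    (hS : Q ≤ primeTower K S) : Even (Nat.card (InfinitePlace F)) := by
  have hnf : NumberField F := NumberField.of_module_finite K F
  refine roota_even_card (relGal F Q) (roota_index F Q hQ h2) fun g w hw => ?_
  intro x hx
  -- the embedding of `F`, and an extension to the algebraic closure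
  have hmk : InfinitePlace.mk (w.embedding.comp (g.symm : F →+* F)) = w := by
    have h3 : g • w = InfinitePlace.mk (w.embedding.comp (g.symm : F →+* F)) := by
      conv_lhs => rw [← InfinitePlace.mk_embedding w]
      rfl
    rw [← h3]
    exact hw
  have hcase : w.embedding.comp (g.symm : F →+* F) = w.embedding ∨
      ComplexEmbedding.conjugate (w.embedding.comp (g.symm : F →+* F)) = w.embedding := by
    rw [← InfinitePlace.mk_eq_iff, hmk, InfinitePlace.mk_embedding]
  rcases hcase with h | h
  · have h3 := RingHom.congr_fun h (g x)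
    have h4 : g.symm (g x) = x := g.symm_apply_apply x
    have h5 : w.embedding (g.symm (g x)) = w.embedding (g x) := h3
    rw [h4] at h5
    exact (w.embedding.injective h5).symm
  · have hconj : ∀ y : F, starRingEnd ℂ (w.embedding (g.symm y)) = w.embedding y := by
      intro y
      exact RingHom.congr_fun h y
    let _ : Algebra F ℂ := w.embedding.toAlgebra
    have halg : Algebra.IsAlgebraic F (AlgebraicClosure K) :=
      Algebra.IsAlgebraic.tower_top (K := K) F
    let Φ : AlgebraicClosure K →ₐ[F] ℂ := IsAlgClosed.lift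
    have hΦ : ∀ y : F, Φ (y : AlgebraicClosure K) = w.embedding y := fun y => Φ.commutes y
    have hK : ∀ y : K, starRingEnd ℂ (Φ (algebraMap K (AlgebraicClosure K) y)) =
        Φ (algebraMap K (AlgebraicClosure K) y) := by
      intro y
      have h3 := hconj (algebraMap K F y)
      rw [AlgEquiv.commutes, ← hΦ] at h3
      exact h3
    have h4 := roota_real S (Φ : AlgebraicClosure K →+* ℂ) hK (x : AlgebraicClosure K) (hS hx)
    have h5 : starRingEnd ℂ (w.embedding x) = w.embedding x := by
      have h6 : starRingEnd ℂ (Φ (x : AlgebraicClosure K)) = Φ (x : AlgebraicClosure K) := h4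
      rwa [hΦ] at h6
    have h6 := hconj (g x)
    have h7 : g.symm (g x) = x := g.symm_apply_apply x
    rw [h7, h5] at h6
    exact (w.embedding.injective h6).symm

/-! ### the places above `2 N` -/

/-- The integer `(1 + √(4 k + 1)) / 2`. -/
theorem roota_half {F : Type u} [Field F] [CharZero F] (k : ℕ) (x : F)
    (hx : x ^ 2 = ((4 * k + 1 : ℕ) : F)) :
    ∃ a : 𝓞 F, (a : F) = (1 + x) / 2 ∧ a * (a - 1) = (k : 𝓞 F) := by
  have h1 : ((1 + x) / 2) * ((1 + x) / 2 - 1) = (k : F) := by
    have : ((1 + x) / 2) * ((1 + x) / 2 - 1) = (x ^ 2 - 1) / 4 := by ring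
    rw [this, hx]
    push_cast
    ring
  have hint : IsIntegral ℤ ((1 + x) / 2) := by
    refine ⟨Polynomial.X ^ 2 - Polynomial.X - Polynomial.C (k : ℤ), ?_, ?_⟩
    · have hd : (Polynomial.X + Polynomial.C (k : ℤ) : Polynomial ℤ).degree < (2 : ℕ) := by
        rw [Polynomial.degree_X_add_C]
        norm_num
      have := Polynomial.monic_X_pow_sub (n := 2)
        (p := (Polynomial.X + Polynomial.C (k : ℤ) : Polynomial ℤ)) hd
      rwa [← sub_sub] at this
    · rw [Polynomial.eval₂_sub, Polynomial.eval₂_sub, Polynomial.eval₂_pow, Polynomial.eval₂_X,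
        Polynomial.eval₂_C]
      have : (algebraMap ℤ F) (k : ℤ) = (k : F) := by simp
      rw [this, ← h1]
      ring
  obtain ⟨a, ha⟩ : ∃ a : 𝓞 F, (a : F) = (1 + x) / 2 := ⟨⟨(1 + x) / 2, hint⟩, rfl⟩
  refine ⟨a, ha, ?_⟩
  apply RingOfIntegers.ext
  have h2 : ((a * (a - 1) : 𝓞 F) : F) = (a : F) * ((a : F) - 1) := rfl
  rw [h2, ha, h1]
  simp

/-- The decomposition groups above `2 N` act trivially on the tower. -/
theorem roota_decomp {N : ℕ} {S : Set ℕ} (hS : Adm N S) (v : HeightOneSpectrum (𝓞 K))
    (hv : ((2 * N : ℕ) : 𝓞 K) ∈ v.asIdeal) (𝔓 : Ideal (𝓞 (AlgebraicClosure K)))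
    (h𝔓 : Above 𝔓 v) (σ : AlgebraicClosure K ≃ₐ[K] AlgebraicClosure K)
    (hσ : σ ∈ decompGrp K 𝔓) : σ ∈ (primeTower K S).fixingSubgroup := by
  have hp : 𝔓.IsPrime := h𝔓.1
  apply fix_primeTower
  intro q hq
  obtain ⟨hq1, hq2⟩ := hS q hq
  obtain ⟨x, hx⟩ := IsAlgClosed.exists_pow_nat_eq (q : AlgebraicClosure K) (n := 2) two_pos
  rw [chi_eq_one_iff q σ x hx]
  rcases sq_map_eq q σ x hx with h | h
  · exact h
  exfalso
  -- `q = 4 k + 1` with `2 N ∣ k`
  have hdvd : 8 * N ∣ q - 1 := (Nat.modEq_iff_dvd' hq1.one_lt.le).1 hq2.symm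
  obtain ⟨c, hc⟩ := hdvd
  have hqk : q = 4 * (2 * N * c) + 1 := by
    have := hq1.one_lt
    have h8 : 8 * N * c = 4 * (2 * N * c) := by ring
    omega
  obtain ⟨a, ha, hak⟩ := roota_half (F := AlgebraicClosure K) (2 * N * c) x (by rw [hx, ← hqk])
  have hk : ((2 * N * c : ℕ) : 𝓞 (AlgebraicClosure K)) ∈ 𝔓 := by
    have h1 : ((2 * N * c : ℕ) : 𝓞 K) ∈ v.asIdeal := by
      rw [Nat.cast_mul]
      exact Ideal.mul_mem_right _ _ hv
    rw [← h𝔓.2, Ideal.mem_comap, map_natCast] at h1
    exact h1
  have hsa : galInt σ a = 1 - a := by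
    apply RingOfIntegers.ext
    have h1 : ((galInt σ a : 𝓞 (AlgebraicClosure K)) : AlgebraicClosure K) =
      σ (a : AlgebraicClosure K) := rfl
    have h2 : ((1 - a : 𝓞 (AlgebraicClosure K)) : AlgebraicClosure K) =
      1 - (a : AlgebraicClosure K) := rfl
    rw [h1, h2, ha, map_div₀, map_add, map_one, h, map_ofNat]
    ring
  have h1 : a ∈ 𝔓 ↔ 1 - a ∈ 𝔓 := by
    rw [← hsa]
    exact (hσ a).symm
  have h2 : ¬ (a ∈ 𝔓 ∧ 1 - a ∈ 𝔓) := by
    rintro ⟨h3, h4⟩
    apply hp.ne_top
    rw [Ideal.eq_top_iff_one]
    have := add_mem h3 h4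
    rwa [add_sub_cancel] at this
  rw [← hak] at hk
  rcases hp.mem_or_mem hk with h3 | h3
  · exact h2 ⟨h3, h1.1 h3⟩
  · have h4 : 1 - a ∈ 𝔓 := by
      have := neg_mem h3
      rwa [neg_sub] at this
    exact h2 ⟨h1.2 h4, h4⟩

/-- The number of places of `F` above a place which divides `2 N` is finite and even. -/
theorem roota_finite_places {N : ℕ} {S : Set ℕ} (hS : Adm N S)
    (F Q : IntermediateField K (AlgebraicClosure K)) [FiniteDimensional K F]
    [IsGalois K F] (hQ : Q ≤ F) (h2 : Module.finrank K Q = 2) (hQS : Q ≤ primeTower K S)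
    (v : HeightOneSpectrum (𝓞 K)) (hv : ((2 * N : ℕ) : 𝓞 K) ∈ v.asIdeal) :
    Even (Nat.card {w : HeightOneSpectrum (𝓞 F) // Divides F w v}) := by
  obtain ⟨𝔓, h𝔓⟩ := exists_above v
  obtain ⟨T, hT1, hT2, -⟩ := exists_T F F le_rfl v 𝔓 h𝔓
  set D := (decompGrp K 𝔓).map (AlgEquiv.restrictNormalHom F) with hD
  have hDQ : D ≤ relGal F Q := by
    rintro _ ⟨σ, hσ, rfl⟩
    have h1 := roota_decomp hS v hv 𝔓 h𝔓 σ hσ
    rw [← map_fixingSubgroup F Q hQ]
    refine Subgroup.mem_map_of_mem _ ?_
    rw [IntermediateField.mem_fixingSubgroup_iff] at h1 ⊢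
    intro x hx
    exact h1 x (hQS hx)
  have hcard : Nat.card {w : HeightOneSpectrum (𝓞 F) // Divides F w v} = D.index := by
    have hlift : ∀ a b : F ≃ₐ[K] F, (QuotientGroup.leftRel D) a b → T a = T b := by
      intro a b hab
      rw [QuotientGroup.leftRel_apply] at hab
      rw [hT2]
      exact ⟨1, Subgroup.one_mem _, ⟨a⁻¹ * b, hab⟩, by simp⟩
    let f : ((F ≃ₐ[K] F) ⧸ D) → {w : HeightOneSpectrum (𝓞 F) // Divides F w v} :=
      fun z => Quotient.lift T hlift z
    have hf : Function.Bijective f := by
      constructor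
      · intro a b
        induction a using Quotient.inductionOn with
        | _ a =>
          induction b using Quotient.inductionOn with
          | _ b =>
            intro hab
            have h1 : T a = T b := hab
            rw [hT2] at h1
            obtain ⟨h, hh, d, hd⟩ := h1
            have hh1 : h = 1 := by
              have h3 : h ∈ relGal F F := hh
              apply AlgEquiv.ext
              intro y
              exact h3 y y.2
            apply Quotient.sound
            show (QuotientGroup.leftRel D) a b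
            rw [QuotientGroup.leftRel_apply, hd, hh1]
            have : a⁻¹ * (1 * a * (d : F ≃ₐ[K] F)) = d := by group
            rw [this]
            exact d.2
      · intro w
        obtain ⟨g, hg⟩ := hT1 w
        exact ⟨Quotient.mk _ g, hg⟩
    rw [← Nat.card_congr (Equiv.ofBijective f hf)]
    rfl
  rw [hcard, ← Subgroup.relIndex_mul_index hDQ, roota_index F Q hQ h2]
  exact even_two.mul_left _

end fields

end Pool.Agent.H.MP_ac3185_nt
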