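import Pool.Agent.H.MP_ac3185_nt.U.RootA

/-! The local root numbers of a quadratic twist at the places which do not divide `2 N`. -/

set_option autoImplicit false

open CategoryTheory AlgebraicGeometry NumberField IsDedekindDomain
open scoped MonObj Pointwise

namespace Pool.Agent.H.MP_ac3185_nt

universe u

section tate

variable {K : Type u} [Field K] {A B : Over (Spec (.of K))} [GrpObj A] [IsAbVar A] [GrpObj B]
  [IsAbVar B]

theorem rootb_map_comp (φ : Pts A (AlgebraicClosure K) ≃+ Pts B (AlgebraicClosure K)) (ℓ : ℕ)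
    [Fact ℓ.Prime] :
    (VTate.map (ℓ := ℓ) (φ : Pts A (AlgebraicClosure K) →+ Pts B (AlgebraicClosure K))).comp
      (VTate.map (φ.symm : Pts B (AlgebraicClosure K) →+ Pts A (AlgebraicClosure K))) =
        LinearMap.id := by
  rw [← VTate.map_comp, ← VTate.map_id]
  congr 1
  refine AddMonoidHom.ext fun x => ?_
  exact φ.apply_symm_apply x

theorem rootb_map_comp' (φ : Pts A (AlgebraicClosure K) ≃+ Pts B (AlgebraicClosure K)) (ℓ : ℕ)
    [Fact ℓ.Prime] :
    (VTate.map (ℓ := ℓ) (φ.symm : Pts B (AlgebraicClosure K) →+ Pts A (AlgebraicClosure K))).comp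
      (VTate.map (φ : Pts A (AlgebraicClosure K) →+ Pts B (AlgebraicClosure K))) =
        LinearMap.id := by
  rw [← VTate.map_comp, ← VTate.map_id]
  congr 1
  refine AddMonoidHom.ext fun x => ?_
  exact φ.symm_apply_apply x

theorem rootb_finite (φ : Pts A (AlgebraicClosure K) ≃+ Pts B (AlgebraicClosure K)) (ℓ : ℕ)
    [Fact ℓ.Prime] (h : FiniteDimensional ℚ_[ℓ] (VTate ℓ (Pts A (AlgebraicClosure K)))) :
    FiniteDimensional ℚ_[ℓ] (VTate ℓ (Pts B (AlgebraicClosure K))) :=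
  (LinearEquiv.ofLinear _ _ (rootb_map_comp φ ℓ) (rootb_map_comp' φ ℓ)).finiteDimensional

theorem rootb_pos (φ : Pts A (AlgebraicClosure K) ≃+ Pts B (AlgebraicClosure K)) (ℓ : ℕ)
    [Fact ℓ.Prime] (σ : AlgebraicClosure K ≃ₐ[K] AlgebraicClosure K)
    (hA : galV A ℓ σ = LinearMap.id) (h : ∀ x, φ (galHom A σ x) = galHom B σ (φ x)) :
    galV B ℓ σ = LinearMap.id := by
  have h1 : galHom B σ = ((φ : Pts A (AlgebraicClosure K) →+ Pts B (AlgebraicClosure K)).comp
      (galHom A σ)).comp (φ.symm : Pts B (AlgebraicClosure K) →+ Pts A (AlgebraicClosure K)) := by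
    refine AddMonoidHom.ext fun x => ?_
    show galHom B σ x = φ (galHom A σ (φ.symm x))
    rw [h, φ.apply_symm_apply]
  unfold galV at hA ⊢
  rw [h1, VTate.map_comp, VTate.map_comp, hA, LinearMap.comp_id, rootb_map_comp]

theorem rootb_neg (φ : Pts A (AlgebraicClosure K) ≃+ Pts B (AlgebraicClosure K)) (ℓ : ℕ)
    [Fact ℓ.Prime] (σ : AlgebraicClosure K ≃ₐ[K] AlgebraicClosure K)
    (hA : galV A ℓ σ = LinearMap.id) (h : ∀ x, φ (galHom A σ x) = -galHom B σ (φ x)) :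
    galV B ℓ σ = -LinearMap.id := by
  have h1 : galHom B σ = (-1 : ℤ) • (((φ : Pts A (AlgebraicClosure K) →+
      Pts B (AlgebraicClosure K)).comp (galHom A σ)).comp
        (φ.symm : Pts B (AlgebraicClosure K) →+ Pts A (AlgebraicClosure K))) := by
    refine AddMonoidHom.ext fun x => ?_
    show galHom B σ x = (-1 : ℤ) • φ (galHom A σ (φ.symm x))
    rw [h, φ.apply_symm_apply, neg_one_zsmul, neg_neg]
  unfold galV at hA ⊢
  rw [h1, VTate.map_zsmul, VTate.map_comp, VTate.map_comp, hA, LinearMap.comp_id, rootb_map_comp]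
  push_cast
  rw [neg_one_smul]

end tate

section places

variable {K : Type u} [Field K] [NumberField K]

theorem rootb_primeOver (F : IntermediateField K (AlgebraicClosure K))
    (w : HeightOneSpectrum (𝓞 F)) (v : HeightOneSpectrum (𝓞 K)) (h : Divides F w v) :
    ∃ 𝔔, PrimeOver F 𝔔 w ∧ Above 𝔔 v := by
  have hi := plb_integral F
  have hwp : w.asIdeal.IsPrime := w.isPrime
  obtain ⟨𝔔, hQ, hQw⟩ := Ideal.exists_ideal_over_prime_of_isIntegral_of_isDomain
    (S := 𝓞 (AlgebraicClosure K)) w.asIdeal (by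
      rw [(RingHom.injective_iff_ker_eq_bot _).1
        (FaithfulSMul.algebraMap_injective (𝓞 F) (𝓞 (AlgebraicClosure K)))]
      exact bot_le)
  refine ⟨𝔔, ⟨hQ, hQw⟩, hQ, ?_⟩
  rw [← plb_comap_comap F 𝔔, hQw]
  exact h

theorem rootb_cast_mem {v : HeightOneSpectrum (𝓞 K)} {𝔔 : Ideal (𝓞 (AlgebraicClosure K))}
    (h : Above 𝔔 v) (n : ℕ) : (n : 𝓞 (AlgebraicClosure K)) ∈ 𝔔 ↔ (n : 𝓞 K) ∈ v.asIdeal := by
  rw [← h.2, Ideal.mem_comap, map_natCast]

theorem rootb_square {q : ℕ} (hq : q.Prime) (hq4 : q % 4 = 1)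
    (F : IntermediateField K (AlgebraicClosure K)) (w : HeightOneSpectrum (𝓞 F))
    (hw : (q : 𝓞 F) ∈ w.asIdeal) : IsSquare (-1 : 𝓞 F ⧸ w.asIdeal) := by
  have hqF : Fact q.Prime := ⟨hq⟩
  obtain ⟨y, hy⟩ := ZMod.exists_sq_eq_neg_one_iff.2 (by omega : q % 4 ≠ 3)
  obtain ⟨z, rfl⟩ := ZMod.natCast_zmod_surjective y
  have h1 : ((z * z + 1 : ℕ) : ZMod q) = 0 := by
    push_cast
    rw [← hy]
    ring
  rw [ZMod.natCast_eq_zero_iff] at h1
  obtain ⟨c, hc⟩ := h1
  have h2 : ((z : 𝓞 F) * z + 1) ∈ w.asIdeal := by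
    have h3 : ((z : 𝓞 F) * z + 1) = (q : 𝓞 F) * c := by exact_mod_cast congrArg (Nat.cast (R := 𝓞 F)) hc
    rw [h3]
    exact Ideal.mul_mem_right _ _ hw
  refine ⟨Ideal.Quotient.mk w.asIdeal (z : 𝓞 F), ?_⟩
  rw [← Ideal.Quotient.eq_zero_iff_mem, map_add, map_mul, map_one] at h2
  exact (eq_neg_of_add_eq_zero_left h2).symm

/-- The root number of the twist at a place which does not divide `2 N`. -/
theorem rootb_place (A B : Over (Spec (.of K))) [GrpObj A] [IsAbVar A] [GrpObj B] [IsAbVar B]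
    {N : ℕ} (hA : GoodOutside A N) {S : Set ℕ} (hS : Adm N S) (t : Finset ℕ)
    (ht : ∀ q ∈ t, q ∈ S) (hAB : IsQuadTwist A B (∏ q ∈ t, q)) (W : LocalSigns K)
    (hW : IsRootNumberFamily B W) (F : IntermediateField K (AlgebraicClosure K))
    [FiniteDimensional K F] (v : HeightOneSpectrum (𝓞 K))
    (hv : ((2 * N : ℕ) : 𝓞 K) ∉ v.asIdeal) (w : HeightOneSpectrum (𝓞 F)) (hw : Divides F w v) :
    W F w = 1 := by
  obtain ⟨𝔔, h𝔔, hab⟩ := rootb_primeOver F w v hw
  have hp : 𝔔.IsPrime := h𝔔.1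
  have hN : (N : 𝓞 K) ∉ v.asIdeal := fun h => hv (by
    rw [Nat.cast_mul]
    exact Ideal.mul_mem_left _ _ h)
  have h2 : ((2 : ℕ) : 𝓞 K) ∉ v.asIdeal := fun h => hv (by
    rw [Nat.cast_mul]
    exact Ideal.mul_mem_right _ _ h)
  have h2Q : ((2 : ℕ) : 𝓞 (AlgebraicClosure K)) ∉ 𝔔 := fun h => h2 ((rootb_cast_mem hab 2).1 h)
  have hA' := hA v hN 𝔔 hab
  obtain ⟨φ, hφ⟩ := hAB
  obtain ⟨s, hs⟩ := IsAlgClosed.exists_pow_nat_eq ((∏ q ∈ t, q : ℕ) : AlgebraicClosure K)
    (n := 2) two_pos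
  by_cases hn : ((∏ q ∈ t, q : ℕ) : 𝓞 K) ∈ v.asIdeal
  · -- a prime factor of the twisting number lies in `v`
    have hprod : ∃ q ∈ t, ((q : ℕ) : 𝓞 K) ∈ v.asIdeal := by
      rw [Nat.cast_prod] at hn
      have hvp := v.isPrime
      exact (Ideal.IsPrime.prod_mem_iff).1 hn
    obtain ⟨q, hqt, hqv⟩ := hprod
    obtain ⟨hq1, hq2⟩ := hS q (ht q hqt)
    have hq4 : q % 4 = 1 := by
      have h3 : q ≡ 1 [MOD 4] := by
        refine hq2.of_dvd ?_
        exact ⟨2 * N, by ring⟩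
      exact h3
    refine hW.twist F w 𝔔 h𝔔 (by exact_mod_cast h2Q) (rootb_square hq1 hq4 F w ?_) ?_
    · unfold Divides at hw
      rw [← hw, Ideal.mem_comap, map_natCast] at hqv
      exact hqv
    · intro ℓ _ hℓ
      obtain ⟨h3, h4⟩ := hA' ℓ hℓ
      refine ⟨rootb_finite φ ℓ h3, fun g hg _ => ?_⟩
      by_cases hgs : g s = s
      · exact Or.inl (rootb_pos φ ℓ g (h4 g hg) fun x => (hφ g s hs x).1 hgs)
      · exact Or.inr (rootb_neg φ ℓ g (h4 g hg) fun x => (hφ g s hs x).2 hgs)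
  · -- the twist is unramified at `v`
    refine hW.good F w 𝔔 h𝔔 fun ℓ _ hℓ => ?_
    obtain ⟨h3, h4⟩ := hA' ℓ hℓ
    refine ⟨rootb_finite φ ℓ h3, fun g hg _ => ?_⟩
    have hgs : g s = s := by
      rcases sq_map_eq _ g s hs with h | h
      · exact h
      exfalso
      have hint : IsIntegral ℤ s := by
        refine ⟨Polynomial.X ^ 2 - Polynomial.C ((∏ q ∈ t, q : ℕ) : ℤ), ?_, ?_⟩
        · exact Polynomial.monic_X_pow_sub_C _ two_ne_zero
        · rw [Polynomial.eval₂_sub, Polynomial.eval₂_pow, Polynomial.eval₂_X,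
            Polynomial.eval₂_C, hs]
          simp
      obtain ⟨a, ha⟩ : ∃ a : 𝓞 (AlgebraicClosure K), (a : AlgebraicClosure K) = s := ⟨⟨s, hint⟩, rfl⟩
      have h5 : galInt g a - a = -(2 * a) := by
        apply RingOfIntegers.ext
        have e1 : ((galInt g a - a : 𝓞 (AlgebraicClosure K)) : AlgebraicClosure K) =
          g (a : AlgebraicClosure K) - a := rfl
        have e2 : ((-(2 * a) : 𝓞 (AlgebraicClosure K)) : AlgebraicClosure K) =
          -(2 * (a : AlgebraicClosure K)) := rfl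
        rw [e1, e2, ha, h]
        ring
      have h6 : (2 * a) ∈ 𝔔 := by
        have := hg a
        rw [h5] at this
        exact neg_mem_iff.1 this
      have h7 : a * a = ((∏ q ∈ t, q : ℕ) : 𝓞 (AlgebraicClosure K)) := by
        apply RingOfIntegers.ext
        have e1 : ((a * a : 𝓞 (AlgebraicClosure K)) : AlgebraicClosure K) =
          (a : AlgebraicClosure K) * a := rfl
        rw [e1, ha, ← sq, hs]
        simp
      rcases hp.mem_or_mem h6 with h8 | h8
      · exact h2Q (by exact_mod_cast h8)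
      · have h9 : a * a ∈ 𝔔 := Ideal.mul_mem_left _ _ h8
        rw [h7] at h9
        exact hn ((rootb_cast_mem hab _).1 h9)
    exact rootb_pos φ ℓ g (h4 g hg) fun x => (hφ g s hs x).1 hgs

end places

end Pool.Agent.H.MP_ac3185_nt
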